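import Mathlib

/-!
An abstract criterion for embedding a monoid in a group of permutations.
-/

set_option autoImplicit false
set_option linter.unusedSectionVars false

namespace Pool.Agent.P.MP_17d087_al

/-- An invariant subset of a free action with many orbits is a copy of `I × B`. -/
theorem exists_chart {Y I B : Type} [Group I] (α : I →* Equiv.Perm Y)
    (hα : ∀ i y, α i y = y → i = 1) (D : Y → Prop) (hD : ∀ i y, D y → D (α i y))
    (eY : Y ↪ B) (f : B → Y) (hf : ∀ b, D (f b)) (hf' : ∀ i b b', α i (f b) = f b' → b = b') :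
    ∃ c : I → B → Y, (∀ i b, D (c i b)) ∧ (∀ y, D y → ∃ i b, y = c i b) ∧
      (∀ i b i' b', c i b = c i' b' → i = i' ∧ b = b') ∧ ∀ j i b, α j (c i b) = c (j * i) b := by
  let st : Setoid Y := ⟨fun y y' => ∃ i, α i y = y', fun y => ⟨1, by simp⟩,
    fun {y y'} ⟨i, h⟩ => ⟨i⁻¹, by rw [← h]; simp⟩,
    fun {y y' y''} ⟨i, h⟩ ⟨j, h'⟩ => ⟨j * i, by rw [← h', ← h]; simp⟩⟩
  let rep : Y → Y := fun y => (Quotient.mk st y).out
  have hrep : ∀ y, ∃ i, α i (rep y) = y := fun y => Quotient.mk_out (s := st) y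
  have hrep' : ∀ i y, rep (α i y) = rep y := fun i y => by
    have : Quotient.mk st (α i y) = Quotient.mk st y := (Quotient.sound (s := st) ⟨i, rfl⟩).symm
    simp only [rep, this]
  have hrr : ∀ y, rep (rep y) = rep y := fun y => by
    obtain ⟨i, hi⟩ := hrep y
    conv_rhs => rw [← hi, hrep']
  have hDr : ∀ y, D y → D (rep y) := fun y hy => by
    obtain ⟨i, hi⟩ := hrep y
    have := hD i⁻¹ y hy
    rw [← hi] at this
    simpa using this
  let e1 : {y : Y // D y ∧ rep y = y} ↪ B := (Function.Embedding.subtype _).trans eY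
  let e2 : B ↪ {y : Y // D y ∧ rep y = y} :=
    ⟨fun b => ⟨rep (f b), hDr _ (hf b), hrr _⟩, fun b b' h => by
      have h1 : rep (f b) = rep (f b') := congrArg Subtype.val h
      obtain ⟨i, hi⟩ := hrep (f b)
      obtain ⟨j, hj⟩ := hrep (f b')
      apply hf' (j * i⁻¹)
      rw [← hj, ← h1]
      conv_lhs => rw [← hi]
      simp⟩
  obtain ⟨e⟩ := Function.Embedding.antisymm e2 e1
  refine ⟨fun i b => α i (e b).1, fun i b => hD _ _ (e b).2.1, fun y hy => ?_,
    fun i b i' b' h => ?_, fun j i b => by simp⟩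
  · obtain ⟨i, hi⟩ := hrep y
    refine ⟨i, e.symm ⟨rep y, hDr y hy, hrr y⟩, ?_⟩
    simp [hi]
  · have h1 : (e b).1 = (e b').1 := by
      have h2 := congrArg rep h
      simp only [hrep'] at h2
      rwa [(e b).2.2, (e b').2.2] at h2
    refine ⟨?_, e.injective (Subtype.ext h1)⟩
    have h3 : α (i'⁻¹ * i) (e b).1 = (e b).1 := by
      rw [map_mul, Equiv.Perm.mul_apply]
      simp only at h
      rw [h, h1]
      simp
    have := hα _ _ h3
    rw [inv_mul_eq_one] at this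
    exact this.symm

/-- An invariant one-to-one relation extends to an equivariant permutation. -/
theorem exists_perm {Y I B : Type} [Group I] (α β : I →* Equiv.Perm Y)
    (hα : ∀ i y, α i y = y → i = 1) (hβ : ∀ i y, β i y = y → i = 1) (Γ : Y → Y → Prop)
    (h1 : ∀ y z z', Γ y z → Γ y z' → z = z') (h2 : ∀ y y' z, Γ y z → Γ y' z → y = y')
    (hinv : ∀ i y z, Γ y z → Γ (α i y) (β i z)) (eY : Y ↪ B) (f : B → Y)
    (hf1 : ∀ b z, ¬ Γ (f b) z) (hf2 : ∀ b y, ¬ Γ y (f b))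
    (hfα : ∀ i b b', α i (f b) = f b' → b = b') (hfβ : ∀ i b b', β i (f b) = f b' → b = b') :
    ∃ π : Equiv.Perm Y, (∀ y z, Γ y z → π y = z) ∧ ∀ i y, π (α i y) = β i (π y) := by
  obtain ⟨c, c1, c2, c3, c4⟩ := exists_chart α hα (fun y => ∀ z, ¬ Γ y z)
    (fun i y hy z hz => hy (β i⁻¹ z) (by simpa using hinv i⁻¹ _ _ hz)) eY f hf1 hfα
  obtain ⟨d, d1, d2, d3, d4⟩ := exists_chart β hβ (fun z => ∀ y, ¬ Γ y z)
    (fun i z hz y hy => hz (α i⁻¹ y) (by simpa using hinv i⁻¹ _ _ hy)) eY f hf2 hfβ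
  let G : Y → Y → Prop := fun y z => Γ y z ∨ ∃ i b, y = c i b ∧ z = d i b
  have g1 : ∀ y z z', G y z → G y z' → z = z' := by
    rintro y z z' (h | ⟨i, b, rfl, rfl⟩) (h' | ⟨i', b', e, rfl⟩)
    · exact h1 _ _ _ h h'
    · exact absurd h (e ▸ c1 i' b' z)
    · exact absurd h' (c1 i b z')
    · obtain ⟨rfl, rfl⟩ := c3 _ _ _ _ e
      rfl
  have g2 : ∀ y y' z, G y z → G y' z → y = y' := by
    rintro y y' z (h | ⟨i, b, rfl, rfl⟩) (h' | ⟨i', b', rfl, e⟩)
    · exact h2 _ _ _ h h'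
    · exact absurd h (e ▸ d1 i' b' y)
    · exact absurd h' (d1 i b y')
    · obtain ⟨rfl, rfl⟩ := d3 _ _ _ _ e
      rfl
  have g3 : ∀ y, ∃ z, G y z := fun y => by
    by_cases h : ∃ z, Γ y z
    · obtain ⟨z, hz⟩ := h
      exact ⟨z, Or.inl hz⟩
    · obtain ⟨i, b, rfl⟩ := c2 y (fun z hz => h ⟨z, hz⟩)
      exact ⟨_, Or.inr ⟨i, b, rfl, rfl⟩⟩
  have g4 : ∀ z, ∃ y, G y z := fun z => by
    by_cases h : ∃ y, Γ y z
    · obtain ⟨y, hy⟩ := h
      exact ⟨y, Or.inl hy⟩
    · obtain ⟨i, b, rfl⟩ := d2 z (fun y hy => h ⟨y, hy⟩)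
      exact ⟨_, Or.inr ⟨i, b, rfl, rfl⟩⟩
  choose p hp using g3
  choose p' hp' using g4
  refine ⟨⟨p, p', fun y => g2 _ _ _ (hp' _) (hp y), fun z => g1 _ _ _ (hp _) (hp' z)⟩,
    fun y z h => g1 _ _ _ (hp y) (Or.inl h), fun i y => g1 _ _ _ (hp _) ?_⟩
  rcases hp y with h | ⟨j, b, e, e'⟩
  · exact Or.inl (hinv _ _ _ h)
  · refine Or.inr ⟨i * j, b, by rw [e, c4], ?_⟩
    show β i (p y) = _
    rw [e', d4]

/-- The data and laws from which an embedding in a group is built. -/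
structure Data (M H : Type) [Monoid M] [Group H] where
  rel : M → H → M → Prop
  At : M → Prop
  A : M → H → H → M → Prop
  rel_refl : ∀ m, rel m 1 m
  rel_symm : ∀ {m h m'}, rel m h m' → rel m' h⁻¹ m
  rel_trans : ∀ {m h m' h' m''}, rel m h m' → rel m' h' m'' → rel m (h * h') m''
  rel_free : ∀ {m h}, rel m h m → h = 1
  rel_one : ∀ {m m'}, rel m 1 m' → m = m'
  rel_mul : ∀ {m h m'} (n : M), rel m h m' → rel (m * n) h (m' * n)
  A_refl : ∀ {t}, At t → A t 1 1 t
  A_symm : ∀ {t g h t'}, A t g h t' → A t' g⁻¹ h⁻¹ t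
  A_trans : ∀ {t g h t' g' h' t''}, A t g h t' → A t' g' h' t'' → A t (g' * g) (h * h') t''
  A_left : ∀ {t g}, A t g 1 t → g = 1
  A_right : ∀ {t h}, A t 1 h t → h = 1
  key : ∀ {t g h t'} (m m' : M), A t g h t' → (rel m h m' ↔ rel (t' * m') g (t * m))
  two_term : ∀ {t t' m m'}, At t → At t' → t * m = t' * m' → ∃ h, A t 1 h t' ∧ rel m h m'
  compat : ∀ {m h t' n}, rel m h (t' * n) → At t' → ∃ t, At t ∧ m = t * n ∧ A t' h 1 t
  not_unit : ∀ {t m h}, At t → ¬ rel (t * m) h 1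
  ind : ∀ (p : M → Prop), (∀ m h, rel m h 1 → p m) → (∀ t m, At t → p m → p (t * m)) → ∀ m, p m

namespace Data

variable {M H : Type} [Monoid M] [Group H] (D : Data M H)

/-- Spare points. -/
abbrev Big (M H : Type) : Type := List (H × Option M)

/-- The relation extended to the spare points. -/
def relN : M ⊕ Big M H → H → M ⊕ Big M H → Prop
  | Sum.inl m, h, Sum.inl m' => D.rel m h m'
  | Sum.inr b, h, Sum.inr b' => h = 1 ∧ b = b'
  | Sum.inl _, _, Sum.inr _ => False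
  | Sum.inr _, _, Sum.inl _ => False

/-- The equivalence relation defining the space. -/
def st : Setoid (H × (M ⊕ Big M H)) where
  r x x' := D.relN x.2 (x.1⁻¹ * x'.1) x'.2
  iseqv := by
    refine ⟨?_, ?_, ?_⟩
    · rintro ⟨g, m | b⟩
      · simpa [relN] using D.rel_refl m
      · simp [relN]
    · rintro ⟨g, m | b⟩ ⟨g', m' | b'⟩ h
      · simpa [relN] using D.rel_symm h
      · exact h.elim
      · exact h.elim
      · obtain ⟨h1, h2⟩ := h
        rw [inv_mul_eq_one] at h1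
        simp only at h1 h2
        subst h1 h2
        simp [relN]
    · rintro ⟨g, m | b⟩ ⟨g', m' | b'⟩ ⟨g'', m'' | b''⟩ h h'
      · simpa [relN, mul_assoc] using D.rel_trans h h'
      all_goals first
        | exact h.elim
        | exact h'.elim
        | skip
      obtain ⟨h1, h2⟩ := h
      obtain ⟨h3, h4⟩ := h'
      rw [inv_mul_eq_one] at h1 h3
      simp only at h1 h2 h3 h4
      subst h1 h2 h3 h4
      simp [relN]

/-- The space acted on. -/
def Y : Type := Quotient D.st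

/-- Points of the space. -/
def pt (g : H) (n : M ⊕ Big M H) : D.Y := Quotient.mk D.st (g, n)

theorem pt_eq {g g' : H} {n n' : M ⊕ Big M H} :
    D.pt g n = D.pt g' n' ↔ D.relN n (g⁻¹ * g') n' := Quotient.eq (r := D.st)

theorem pt_surj (y : D.Y) : ∃ g n, y = D.pt g n := by
  obtain ⟨⟨g, n⟩, rfl⟩ := Quotient.exists_rep y
  exact ⟨g, n, rfl⟩

/-- Translation. -/
def tr (h : H) : D.Y → D.Y :=
  Quotient.map (fun x => (h * x.1, x.2)) (fun x x' hx => by
    show D.relN x.2 ((h * x.1)⁻¹ * (h * x'.1)) x'.2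
    have : (h * x.1)⁻¹ * (h * x'.1) = x.1⁻¹ * x'.1 := by group
    rw [this]
    exact hx)

theorem tr_pt (h g : H) (n : M ⊕ Big M H) : D.tr h (D.pt g n) = D.pt (h * g) n := rfl

/-- The action of `H`. -/
def act : H →* Equiv.Perm D.Y where
  toFun h := ⟨D.tr h, D.tr h⁻¹, fun y => by
      obtain ⟨g, n, rfl⟩ := D.pt_surj y
      simp [tr_pt], fun y => by
      obtain ⟨g, n, rfl⟩ := D.pt_surj y
      simp [tr_pt]⟩
  map_one' := Equiv.ext fun y => by
    obtain ⟨g, n, rfl⟩ := D.pt_surj y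
    simp [tr_pt]
  map_mul' h h' := Equiv.ext fun y => by
    obtain ⟨g, n, rfl⟩ := D.pt_surj y
    simp [tr_pt, mul_assoc]

theorem act_pt (h g : H) (n : M ⊕ Big M H) : D.act h (D.pt g n) = D.pt (h * g) n := rfl

theorem act_free (h : H) (y : D.Y) (hy : D.act h y = y) : h = 1 := by
  obtain ⟨g, n, rfl⟩ := D.pt_surj y
  rw [act_pt, pt_eq] at hy
  have : (h * g)⁻¹ * g = 1 := by
    rcases n with m | b
    · exact D.rel_free hy
    · exact hy.1
  rw [inv_mul_eq_one] at this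
  exact mul_eq_right.mp this

/-- The space embeds in the spare points. -/
noncomputable def emb : D.Y ↪ Big M H where
  toFun y := match (Quotient.out y : H × (M ⊕ Big M H)) with
    | (g, Sum.inl m) => [(g, some m)]
    | (g, Sum.inr b) => (g, none) :: b
  inj' y y' h := by
    apply Quotient.out_injective
    simp only at h
    generalize (Quotient.out y : H × (M ⊕ Big M H)) = x at h
    generalize (Quotient.out y' : H × (M ⊕ Big M H)) = x' at h
    rcases x with ⟨g, m | b⟩ <;> rcases x' with ⟨g', m' | b'⟩ <;> simp_all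

/-- The isotropy group of an atom. -/
def iso (t : M) (ht : D.At t) : Subgroup (H × H) where
  carrier := {x | D.A t x.1 x.2⁻¹ t}
  one_mem' := by simpa using D.A_refl ht
  mul_mem' := fun {x x'} h h' => by simpa using D.A_trans h' h
  inv_mem' := fun {x} h => by simpa using D.A_symm h

theorem exists_pi0 (t : M) (ht : D.At t) : ∃ π : Equiv.Perm D.Y,
    (∀ t' g h m, D.A t g h t' → π (D.pt h (Sum.inl m)) = D.pt g⁻¹ (Sum.inl (t' * m))) ∧
    ∀ g h, D.A t g h t → π = D.act g * π * D.act h := by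
  obtain ⟨π, h1, h2⟩ := exists_perm
    (D.act.comp ((MonoidHom.snd H H).comp (D.iso t ht).subtype))
    (D.act.comp ((MonoidHom.fst H H).comp (D.iso t ht).subtype))
    (by
      rintro ⟨⟨g, k⟩, hx⟩ y hy
      have hk : k = 1 := D.act_free k y hy
      subst hk
      have hg : g = 1 := D.A_left (by simpa [iso] using hx)
      subst hg
      rfl)
    (by
      rintro ⟨⟨g, k⟩, hx⟩ y hy
      have hg : g = 1 := D.act_free g y hy
      subst hg
      have hk : k⁻¹ = 1 := D.A_right hx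
      rw [inv_eq_one] at hk
      subst hk
      rfl)
    (fun y z => ∃ t' g h m, D.A t g h t' ∧ y = D.pt h (Sum.inl m) ∧
      z = D.pt g⁻¹ (Sum.inl (t' * m)))
    (by
      rintro y z z' ⟨t1, g1, k1, m1, a1, rfl, rfl⟩ ⟨t2, g2, k2, m2, a2, e, rfl⟩
      rw [pt_eq] at e
      have := (D.key m1 m2 (D.A_trans (D.A_symm a1) a2)).mp e
      symm
      rw [pt_eq, inv_inv]
      exact this)
    (by
      rintro y y' z ⟨t1, g1, k1, m1, a1, rfl, rfl⟩ ⟨t2, g2, k2, m2, a2, rfl, e⟩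
      have e' := e.symm
      rw [pt_eq, inv_inv] at e'
      rw [pt_eq]
      exact (D.key m1 m2 (D.A_trans (D.A_symm a1) a2)).mpr e')
    (by
      rintro ⟨⟨g, k⟩, hx⟩ y z ⟨t1, g1, k1, m1, a1, rfl, rfl⟩
      refine ⟨t1, g1 * g⁻¹, k * k1, m1, ?_, rfl, ?_⟩
      · simpa using D.A_trans (D.A_symm hx) a1
      · simp only [mul_inv_rev, inv_inv]
        rfl)
    D.emb (fun b => D.pt 1 (Sum.inr b))
    (by
      rintro b z ⟨t1, g1, k1, m1, -, e, -⟩
      rw [pt_eq] at e
      exact e)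
    (by
      rintro b z ⟨t1, g1, k1, m1, -, -, e⟩
      rw [pt_eq] at e
      exact e)
    (by
      rintro ⟨⟨g, k⟩, hx⟩ b b' e
      have e' : D.pt (k * 1) (Sum.inr b) = D.pt 1 (Sum.inr b') := e
      rw [pt_eq] at e'
      exact e'.2)
    (by
      rintro ⟨⟨g, k⟩, hx⟩ b b' e
      have e' : D.pt (g * 1) (Sum.inr b) = D.pt 1 (Sum.inr b') := e
      rw [pt_eq] at e'
      exact e'.2)
  refine ⟨π, fun t' g h m a => h1 _ _ ⟨t', g, h, m, a, rfl, rfl⟩, fun g h a => ?_⟩
  ext y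
  have := h2 ⟨(g, h⁻¹), by simpa [iso] using a⟩ (D.act h y)
  simp only [MonoidHom.comp_apply, Subgroup.coe_subtype, MonoidHom.coe_snd, MonoidHom.coe_fst,
    map_inv] at this
  simpa using this

theorem exists_pi : ∃ π : M → Equiv.Perm D.Y,
    (∀ t m, D.At t → π t (D.pt 1 (Sum.inl m)) = D.pt 1 (Sum.inl (t * m))) ∧
    ∀ t g h t', D.At t → D.At t' → D.A t g h t' → π t' = D.act g * π t * D.act h := by
  let sa : Setoid {t // D.At t} := ⟨fun t t' => ∃ g h, D.A t.1 g h t'.1,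
    fun t => ⟨1, 1, D.A_refl t.2⟩, fun ⟨_, _, a⟩ => ⟨_, _, D.A_symm a⟩,
    fun ⟨_, _, a⟩ ⟨_, _, a'⟩ => ⟨_, _, D.A_trans a a'⟩⟩
  let rep : {t // D.At t} → {t // D.At t} := fun t => (Quotient.mk sa t).out
  have hrep : ∀ t, ∃ g h, D.A (rep t).1 g h t.1 := fun t => Quotient.mk_out (s := sa) t
  choose gg hh hA using hrep
  choose p0 hp1 hp2 using D.exists_pi0
  classical
  refine ⟨fun t => if ht : D.At t then
    D.act (gg ⟨t, ht⟩) * p0 _ (rep ⟨t, ht⟩).2 * D.act (hh ⟨t, ht⟩) else 1, ?_, ?_⟩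
  · intro t m ht
    simp only [dif_pos ht, Equiv.Perm.mul_apply]
    rw [act_pt, mul_one, hp1 _ _ t _ _ m (hA ⟨t, ht⟩), act_pt, mul_inv_cancel]
  · intro t g h t' ht ht' a
    simp only [dif_pos ht, dif_pos ht']
    have e : rep ⟨t', ht'⟩ = rep ⟨t, ht⟩ := by
      have : Quotient.mk sa ⟨t', ht'⟩ = Quotient.mk sa ⟨t, ht⟩ :=
        (Quotient.sound (s := sa) ⟨g, h, a⟩).symm
      simp only [rep, this]
    have a1 := hA ⟨t, ht⟩
    have a2 := hA ⟨t', ht'⟩
    have e2 : p0 _ (rep ⟨t', ht'⟩).2 = p0 _ (rep ⟨t, ht⟩).2 := by simp only [e]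
    rw [e] at a2
    rw [e2]
    have a3 := D.A_trans (D.A_trans a1 a) (D.A_symm a2)
    conv_lhs => rw [hp2 _ _ _ _ a3]
    simp only [map_mul, map_inv]
    group

/-- The permutation attached to an element through a factorisation into atoms. -/
inductive Rep (π : M → Equiv.Perm D.Y) : M → Equiv.Perm D.Y → Prop
  | unit (m : M) (h : H) : D.rel m h 1 → Rep π m (D.act h)
  | atom (t m : M) (P : Equiv.Perm D.Y) : D.At t → Rep π m P → Rep π (t * m) (π t * P)

theorem embed : ∃ φ : M → Equiv.Perm D.Y, (∀ m n, φ (m * n) = φ m * φ n) ∧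
    Function.Injective φ := by
  obtain ⟨π, p1, p2⟩ := D.exists_pi
  have r1 : ∀ m' P, D.Rep π m' P → ∀ m h, D.rel m h m' → D.Rep π m (D.act h * P) := by
    intro m' P hP
    cases hP with
    | unit _ h' r =>
      intro m h r'
      rw [← map_mul]
      exact Rep.unit _ _ (D.rel_trans r' r)
    | atom t' n P ht' hP =>
      intro m h r'
      obtain ⟨t, ht, rfl, a⟩ := D.compat r' ht'
      have := p2 _ _ _ _ ht' ht a
      rw [map_one, mul_one] at this
      rw [← mul_assoc, ← this]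
      exact Rep.atom _ _ _ ht hP
  have r2 : ∀ m P, D.Rep π m P → ∀ m' P', D.Rep π m' P' → m = m' → P = P' := by
    intro m P hP
    induction hP with
    | unit m h r =>
      intro m' P' hP' e
      cases hP' with
      | unit _ h' r' =>
        subst e
        have := D.rel_free (D.rel_trans r (D.rel_symm r'))
        rw [mul_inv_eq_one] at this
        rw [this]
      | atom t n P ht hP => exact absurd (e ▸ r) (D.not_unit ht)
    | atom t n P ht hP ih =>
      intro m' P' hP' e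
      cases hP' with
      | unit _ h' r' => exact absurd (e ▸ r') (D.not_unit ht)
      | atom t' n' P' ht' hP' =>
        obtain ⟨h, a, r⟩ := D.two_term ht ht' e
        rw [ih _ _ (r1 _ _ hP' _ _ r) rfl, p2 _ _ _ _ ht ht' a, map_one, one_mul, mul_assoc]
  have r3 : ∀ m, ∃ P, D.Rep π m P :=
    D.ind _ (fun m h r => ⟨_, Rep.unit _ _ r⟩) (fun t m ht ⟨_, hP⟩ => ⟨_, Rep.atom _ _ _ ht hP⟩)
  have r4 : ∀ m P, D.Rep π m P → ∀ n Q, D.Rep π n Q → D.Rep π (m * n) (P * Q) := by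
    intro m P hP n Q hQ
    induction hP with
    | unit m h r => exact r1 _ _ hQ _ _ (by simpa using D.rel_mul n r)
    | atom t m P ht hP ih =>
      rw [mul_assoc, mul_assoc]
      exact Rep.atom _ _ _ ht ih
  have r5 : ∀ m P, D.Rep π m P → P (D.pt 1 (Sum.inl 1)) = D.pt 1 (Sum.inl m) := by
    intro m P hP
    induction hP with
    | unit m h r =>
      symm
      rw [act_pt, pt_eq]
      simpa [relN] using r
    | atom t m P ht hP ih => rw [Equiv.Perm.mul_apply, ih, p1 _ _ ht]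
  choose φ hφ using r3
  refine ⟨φ, fun m n => r2 _ _ (hφ _) _ _ (r4 _ _ (hφ m) _ _ (hφ n)) rfl, fun m n e => ?_⟩
  have := r5 _ _ (hφ m)
  rw [e, r5 _ _ (hφ n), pt_eq] at this
  exact (D.rel_one (by simpa [relN] using this)).symm

end Data

end Pool.Agent.P.MP_17d087_al
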