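import Pool.Agent.P.MP_17d087_al.Two
import Pool.Agent.P.MP_17d087_al.Embed

/-!
The nonzero elements of `R` embed in a group, and `R` is not invertible.
-/

set_option autoImplicit false
set_option linter.unusedSectionVars false

namespace Pool.Agent.P.MP_17d087_al

variable {K : Type} [Field K] [Par K]

/-- The monoid of nonzero elements of `R`. -/
def Mo (K : Type) [Field K] [Par K] : Submonoid (S K) where
  carrier := {m | m ∈ R K ∧ m ≠ 0}
  mul_mem' := fun h h' => ⟨mul_mem h.1 h'.1, fun e => h.2 (domain h.1 h'.1 e h'.2)⟩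
  one_mem' := ⟨one_mem _, one_ne_zero'⟩

theorem ueps (h : (S K)ˣ) : eps (h : S K) ≠ 0 := eps_ne_zero_of_isUnit h.isUnit

theorem uinv {h : (S K)ˣ} (hh : (h : S K) ∈ R K) : ((h⁻¹ : (S K)ˣ) : S K) ∈ R K :=
  inv_mem_R hh (ueps h) h.mul_inv

/-- The partially defined action of the units of the ambient ring. -/
def rel (m : S K) (h : (S K)ˣ) (m' : S K) : Prop :=
  m = (h : S K) * m' ∧ ((h : S K) ∈ R K ∨ XR m m')

/-- The two-sided relation between atoms. -/
def AA (t : S K) (g h : (S K)ˣ) (t' : S K) : Prop :=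
  t' = (g : S K) * t * (h : S K) ∧
    (((h : S K) ∈ R K ∧ ((g : S K) ∈ R K ∨ XR t' (t * (h : S K)))) ∨ ((g : S K) ∈ R K ∧ IsA t))

theorem rel_symm {m m' : S K} {h : (S K)ˣ} (r : rel m h m') : rel m' h⁻¹ m := by
  obtain ⟨e, r⟩ := r
  refine ⟨by rw [e]; simp, ?_⟩
  rcases r with r | r
  · exact Or.inl (uinv r)
  · exact Or.inr r.symm

theorem rel_trans {m m' m'' : S K} {h h' : (S K)ˣ} (r : rel m h m') (r' : rel m' h' m'') :
    rel m (h * h') m'' := by
  obtain ⟨e', s'⟩ := rel_symm r'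
  obtain ⟨e, r⟩ := r
  obtain ⟨e1, r'⟩ := r'
  refine ⟨by rw [e, e1]; simp [mul_assoc], ?_⟩
  rcases r with r | r <;> rcases r' with r' | r'
  · exact Or.inl (by simpa using mul_mem r r')
  · exact Or.inr (e ▸ r'.lmul r (ueps h))
  · exact Or.inr (e' ▸ r.lmul' (uinv r') (ueps _))
  · exact Or.inr (r.trans r')

theorem rel_mul {m m' n : S K} {h : (S K)ˣ} (hn : n ∈ Mo K) (r : rel m h m') :
    rel (m * n) h (m' * n) :=
  ⟨by rw [r.1, mul_assoc], r.2.imp id fun r => r.rmul hn.1 hn.2⟩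

theorem rel_free {m : S K} {h : (S K)ˣ} (hm : m ∈ Mo K) (r : rel m h m) : h = 1 := by
  obtain ⟨e, r⟩ := r
  apply Units.ext
  rcases r with r | r
  · exact cancel_right r (one_mem _) hm.1 hm.2 (by rw [← e]; simp)
  · exact r.left.cancel (by rw [← e]; simp)

theorem unit_mem {h : (S K)ˣ} (hh : (h : S K) ∈ R K) : (h : S K) ∈ Mo K :=
  ⟨hh, fun e => ueps h (by rw [e, map_zero])⟩

theorem AA_symm {t t' : S K} {g h : (S K)ˣ} (a : AA t g h t') : AA t' g⁻¹ h⁻¹ t := by
  obtain ⟨e, a⟩ := a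
  refine ⟨by rw [e]; simp [mul_assoc], ?_⟩
  rcases a with ⟨a, a' | a'⟩ | ⟨a, a'⟩
  · exact Or.inl ⟨uinv a, Or.inl (uinv a')⟩
  · refine Or.inl ⟨uinv a, Or.inr ?_⟩
    have := (a'.rmul (uinv a) (unit_mem (uinv a)).2).symm
    simpa using this
  · exact Or.inr ⟨uinv a, e ▸ a'.mul a (ueps g) h⟩

theorem AA_trans {t t' t'' : S K} {g h g' h' : (S K)ˣ} (a : AA t g h t') (b : AA t' g' h' t'') :
    AA t (g' * g) (h * h') t'' := by
  have a0 := AA_symm a
  obtain ⟨e, a⟩ := a
  obtain ⟨e', b⟩ := b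
  refine ⟨by rw [e', e]; simp [mul_assoc], ?_⟩
  rcases a with ⟨a, a'⟩ | ⟨a, a'⟩
  · rcases b with ⟨b, b'⟩ | ⟨b, b'⟩
    · refine Or.inl ⟨by simpa using mul_mem a b, ?_⟩
      have r1 : rel t' g (t * (h : S K)) := ⟨by rw [e, mul_assoc], a'⟩
      have r2 : rel t'' g' (t' * (h' : S K)) := ⟨by rw [e', mul_assoc], b'⟩
      have := (rel_trans r2 (rel_mul (unit_mem b) r1)).2
      simpa [mul_assoc] using this
    · rcases a' with a' | a'
      · refine Or.inr ⟨by simpa using mul_mem b a', ?_⟩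
        rw [a0.1]
        exact b'.mul (uinv a') (ueps _) _
      · exact absurd a'.left b'.not_XT
  · have hA : IsA t' := e ▸ a'.mul a (ueps g) h
    rcases b with ⟨b, b' | b'⟩ | ⟨b, b'⟩
    · exact Or.inr ⟨by simpa using mul_mem b' a, a'⟩
    · have := hA.mul (one_mem _) (by simp) h'
      rw [one_mul] at this
      exact absurd b'.right this.not_XT
    · exact Or.inr ⟨by simpa using mul_mem b a, a'⟩

theorem AA_left {t : S K} {g : (S K)ˣ} (ht : t ∈ Mo K) (a : AA t g 1 t) : g = 1 := by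
  obtain ⟨e, a⟩ := a
  simp only [Units.val_one, mul_one] at e a
  apply rel_free ht
  refine ⟨e, ?_⟩
  rcases a with ⟨-, a'⟩ | ⟨a, -⟩
  · exact a'
  · exact Or.inl a

theorem AA_right {t : S K} {h : (S K)ˣ} (ht : t ∈ Mo K) (a : AA t 1 h t) : h = 1 := by
  obtain ⟨e, a⟩ := a
  simp only [Units.val_one, one_mul] at e a
  apply Units.ext
  rcases a with ⟨a, -⟩ | ⟨-, a⟩
  · exact cancel_left ht.1 a (one_mem _) ht.2 (by rw [← e]; simp)
  · exact a.cancel (by rw [← e]; simp)

theorem AA_key {t t' m m' : S K} {g h : (S K)ˣ} (ht : Atm t) (ht' : Atm t') (hm : m ∈ Mo K)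
    (hm' : m' ∈ Mo K) (a : AA t g h t') : rel m h m' ↔ rel (t' * m') g (t * m) := by
  obtain ⟨e, a⟩ := a
  constructor
  · rintro ⟨e1, -⟩
    refine ⟨by rw [e, e1]; simp [mul_assoc], ?_⟩
    rcases a with ⟨-, a' | a'⟩ | ⟨a, -⟩
    · exact Or.inl a'
    · refine Or.inr ?_
      rw [e1, ← mul_assoc]
      exact a'.rmul hm'.1 hm'.2
    · exact Or.inl a
  · rintro ⟨e1, -⟩
    have e2 : t * m = t * ((h : S K) * m') := by
      apply g.isUnit.mul_left_cancel
      rw [← e1, e]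
      simp [mul_assoc]
    rcases a with ⟨a, -⟩ | ⟨a, a'⟩
    · exact ⟨cancel_left ht.1 hm.1 (mul_mem a hm'.1) ht.ne_zero e2, Or.inl a⟩
    · obtain ⟨k, k1, k2, k3⟩ := two_term_raw (ht.lmul a (ueps g)) ht' hm.1 hm'.1 hm.2 hm'.2
        (by rw [e1, mul_assoc])
      have : (h : S K) = k := by
        apply a'.cancel
        apply g.isUnit.mul_left_cancel
        rw [← mul_assoc, ← mul_assoc, ← e, ← k1]
      rw [Units.ext this]
      exact ⟨k2, k3.imp id fun k => k.2⟩

theorem exists_atom : ∀ (N : ℕ) (m : S K), m ∈ Mo K → eps m = 0 → ¬ J N m →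
    ∃ t n, Atm t ∧ n ∈ R K ∧ m = t * n := by
  intro N
  induction N with
  | zero => exact fun m _ _ h => absurd (J_zero m) h
  | succ N ih =>
    intro m hm h0 hJ
    by_cases ha : Atm m
    · exact ⟨m, 1, ha, one_mem _, (mul_one m).symm⟩
    · have : ∃ r ∈ R K, ∃ s ∈ R K, m = r * s ∧ eps r = 0 ∧ eps s = 0 := by
        by_contra hc
        exact ha ⟨hm.1, h0, fun r hr s hs e h1 h2 => hc ⟨r, hr, s, hs, e, h1, h2⟩⟩
      obtain ⟨r, hr, s, hs, rfl, h1, h2⟩ := this
      obtain ⟨t, n, ht, hn, rfl⟩ := ih r ⟨hr, fun e => hm.2 (by rw [e, zero_mul])⟩ h1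
        (fun h => hJ (h.mul (J_one_iff.mpr h2)))
      exact ⟨t, n * s, ht, mul_mem hn hs, mul_assoc _ _ _⟩

/-- The embedding data of the ring `R`. -/
def data (K : Type) [Field K] [Par K] : Data (Mo K) (S K)ˣ where
  rel m h m' := rel m.1 h m'.1
  At t := Atm t.1
  A t g h t' := Atm t.1 ∧ Atm t'.1 ∧ AA t.1 g h t'.1
  rel_refl m := ⟨by simp, Or.inl (one_mem _)⟩
  rel_symm := rel_symm
  rel_trans := rel_trans
  rel_free := fun {m _} r => rel_free m.2 r
  rel_one := fun r => Subtype.ext (by simpa using r.1)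
  rel_mul := fun n r => rel_mul n.2 r
  A_refl := fun ht => ⟨ht, ht, by simp, Or.inl ⟨one_mem _, Or.inl (one_mem _)⟩⟩
  A_symm := fun a => ⟨a.2.1, a.1, AA_symm a.2.2⟩
  A_trans := fun a b => ⟨a.1, b.2.1, AA_trans a.2.2 b.2.2⟩
  A_left := fun {t _} a => AA_left t.2 a.2.2
  A_right := fun {t _} a => AA_right t.2 a.2.2
  key := fun m m' a => AA_key a.1 a.2.1 m.2 m'.2 a.2.2
  two_term := fun {t t' m m'} ht ht' e => by
    obtain ⟨k, k1, k2, k3⟩ := two_term_raw ht ht' m.2.1 m'.2.1 m.2.2 m'.2.2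
      (congrArg Subtype.val e)
    refine ⟨k, ⟨ht, ht', by simpa using k1, ?_⟩, k2, k3.imp id fun k => k.2⟩
    rcases k3 with k3 | k3
    · exact Or.inl ⟨k3, Or.inl (one_mem _)⟩
    · exact Or.inr ⟨one_mem _, k3.1⟩
  compat := fun {m h t' n} r ht' => by
    obtain ⟨e, r | r⟩ := r
    · have ha := ht'.lmul r (ueps h)
      exact ⟨⟨_, ha.1, ha.ne_zero⟩, ha, Subtype.ext (by simpa [mul_assoc] using e), ht', ha,
        by simp, Or.inl ⟨one_mem _, Or.inl r⟩⟩
    · obtain ⟨t, e1, x⟩ := XR.compat r ht'.1 ht'.2.1 n.2.1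
      have ha := Atm.of_XR x ht'
      obtain ⟨k, hk⟩ := x.unit
      have e2 : (k : S K) = h := by
        apply r.right.cancel
        rw [← e, e1, hk]
        simp [mul_assoc]
      exact ⟨⟨t, ha.1, ha.ne_zero⟩, ha, Subtype.ext e1, ht', ha, by simpa [← e2] using hk,
        Or.inl ⟨one_mem _, Or.inr (by simpa using x)⟩⟩
  not_unit := fun {t m h} ht r => by
    have := congrArg eps r.1
    simp only [Submonoid.coe_mul, map_mul, ht.2.1, zero_mul, OneMemClass.coe_one, mul_one] at this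
    exact ueps h this.symm
  ind := fun p h1 h2 m => by
    have key : ∀ N, ∀ m : Mo K, ¬ J N m.1 → p m := by
      intro N
      induction N with
      | zero => exact fun m h => absurd (J_zero _) h
      | succ N ih =>
        intro m hJ
        by_cases h0 : eps m.1 = 0
        · obtain ⟨t, n, ht, hn, e⟩ := exists_atom _ _ m.2 h0 hJ
          have hn0 : n ≠ 0 := fun h => m.2.2 (by rw [e, h, mul_zero])
          have : m = (⟨t, ht.1, ht.ne_zero⟩ : Mo K) * ⟨n, hn, hn0⟩ := Subtype.ext e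
          rw [this]
          apply h2 _ _ ht
          apply ih
          intro h
          apply hJ
          rw [e, add_comm]
          exact (J_one_iff.mpr ht.2.1).mul h
        · obtain ⟨u, hu⟩ := isUnit_of_eps h0
          exact h1 m u ⟨by simp [hu], Or.inl (hu ▸ m.2.1)⟩
    by_contra hc
    exact m.2.2 (eq_zero_of_J fun N => by_contra fun h => hc (key N m h))

theorem group_embed : ∃ (G : Type) (_ : Group G) (φ : R K → G),
    (∀ a b, a ≠ 0 → b ≠ 0 → φ (a * b) = φ a * φ b) ∧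
      ∀ a b, a ≠ 0 → b ≠ 0 → φ a = φ b → a = b := by
  classical
  obtain ⟨φ, h1, h2⟩ := (data K).embed
  have hne : ∀ a : R K, a ≠ 0 → (a : S K) ∈ Mo K := fun a h =>
    ⟨a.2, fun e => h (Subtype.ext e)⟩
  refine ⟨_, inferInstance, fun a => if h : a ≠ 0 then φ ⟨a, hne a h⟩ else 1, ?_, ?_⟩
  · intro a b ha hb
    have hab : a * b ≠ 0 := fun e =>
      ((Mo K).mul_mem (hne a ha) (hne b hb)).2 (congrArg Subtype.val e)
    simp only [dif_pos ha, dif_pos hb, dif_pos hab]
    rw [← h1]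
    rfl
  · intro a b ha hb e
    simp only [dif_pos ha, dif_pos hb] at e
    exact Subtype.ext (congrArg (fun m : Mo K => m.1) (h2 e))

theorem forced {T : Type*} [Ring T] {a b f g c1 c2 c3 y v x u z w : T} (ha : IsUnit a)
    (hy : IsUnit y) (hc : IsUnit c3) (r1 : a * x = b * y) (r2 : a * u = b * v)
    (r3 : f * z = g * y) (r4 : c1 * x + c2 * y + c3 * z = 0) (r5 : c1 * u + c2 * v + c3 * w = 0) :
    f * w = g * v := by
  obtain ⟨a, rfl⟩ := ha
  obtain ⟨c3, rfl⟩ := hc
  have e1 : x = (a⁻¹ : Tˣ) * b * y := by rw [mul_assoc, ← r1]; simp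
  have e2 : u = (a⁻¹ : Tˣ) * b * v := by rw [mul_assoc, ← r2]; simp
  have e3 : z = -((c3⁻¹ : Tˣ) * (c1 * ((a⁻¹ : Tˣ) * b) + c2)) * y := by
    rw [neg_mul, mul_assoc, add_mul, mul_assoc, ← e1, eq_neg_of_add_eq_zero_left r4]
    simp
  have e4 : w = -((c3⁻¹ : Tˣ) * (c1 * ((a⁻¹ : Tˣ) * b) + c2)) * v := by
    rw [neg_mul, mul_assoc, add_mul, mul_assoc, ← e2, eq_neg_of_add_eq_zero_left r5]
    simp
  rw [e3, ← mul_assoc] at r3
  rw [e4, ← mul_assoc, hy.mul_right_cancel r3]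

theorem c3_ne_zero : (lt Lt.c3 : S K) ≠ 0 := by
  intro h
  have h1 := co_lt_mul_cons (K := K) Lt.c3 Lt.c3 1 (w := []) trivial
  rw [h, zero_mul, co_zero, if_pos rfl, ← eps_apply, map_one] at h1
  exact zero_ne_one h1

theorem not_invertible (T : Type*) [Ring T] (ι : R K →ₙ+* T) (hι : Function.Injective ι) :
    ¬ ∀ a, a ≠ 0 → IsUnit (ι a) := by
  intro h
  let G : Gn → R K := fun i => ⟨gen i, gen_mem i⟩
  have ha : G .a ≠ 0 := fun e => lt_ne_zero (p := Lt.a) (by decide) (congrArg Subtype.val e)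
  have hy : G .y ≠ 0 := fun e => lt_ne_zero (p := Lt.y) (by decide) (congrArg Subtype.val e)
  have hc : G .c3 ≠ 0 := fun e => c3_ne_zero (congrArg Subtype.val e)
  have r1 : G .a * G .x = G .b * G .y := Subtype.ext rel_ab_1
  have r2 : G .a * G .u = G .b * G .v := Subtype.ext rel_ab_2
  have r3 : G .f * G .z = G .g * G .y := Subtype.ext rel_fg
  have r4 : G .c1 * G .x + G .c2 * G .y + G .c3 * G .z = 0 := Subtype.ext rel_c_1
  have r5 : G .c1 * G .u + G .c2 * G .v + G .c3 * G .w = 0 := Subtype.ext rel_c_2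
  have := forced (b := ι (G .b)) (f := ι (G .f)) (g := ι (G .g)) (c1 := ι (G .c1))
    (c2 := ι (G .c2)) (v := ι (G .v)) (x := ι (G .x)) (u := ι (G .u)) (z := ι (G .z))
    (w := ι (G .w)) (h _ ha) (h _ hy) (h _ hc) (by simpa using congrArg ι r1)
    (by simpa using congrArg ι r2) (by simpa using congrArg ι r3) (by simpa using congrArg ι r4)
    (by simpa using congrArg ι r5)
  rw [← map_mul, ← map_mul] at this
  exact kappa_ne (congrArg Subtype.val (hι this))

instance : Nontrivial (S K) := ⟨⟨1, 0, one_ne_zero'⟩⟩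

theorem noZeroDivisors_R : NoZeroDivisors (R K) :=
  ⟨fun {a b} h => by
    by_cases hb : b = 0
    · exact Or.inr hb
    · exact Or.inl (Subtype.ext (domain a.2 b.2 (congrArg Subtype.val h)
        fun e => hb (Subtype.ext e)))⟩

theorem charP_R (p : ℕ) [CharP K p] : CharP (R K) p := by
  have : CharP (S K) p := charP_of_injective_algebraMap (algebraMap K (S K)).injective p
  infer_instance

/-- The rational function field with its constants. -/
@[reducible] noncomputable def parRat (F : Type) [Field F] : Par (RatFunc F) where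
  k := (algebraMap F (RatFunc F)).fieldRange
  th := RatFunc.X
  hth := by
    rintro ⟨c, hc⟩
    have h1 : algebraMap (Polynomial F) (RatFunc F) (Polynomial.C c)
        = algebraMap (Polynomial F) (RatFunc F) Polynomial.X := by
      rw [RatFunc.algebraMap_X, ← hc]
      rfl
    exact Polynomial.X_ne_C c (RatFunc.algebraMap_injective F h1).symm

end Pool.Agent.P.MP_17d087_al
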