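import Pool.Agent.P.MP_17d087_al.Series

/-!
The ring of power series in nine letters modulo the relation `c3 * o = 0`.
-/

set_option autoImplicit false
set_option linter.unusedSectionVars false

namespace Pool.Agent.P.MP_17d087_al

/-- The nine letters. -/
inductive Lt : Type
  | a | f | c1 | c3 | y | v | l | n | o
  deriving DecidableEq

/-- Words without the factor `c3 o`. -/
def adm : List Lt → Prop
  | [] => True
  | [_] => True
  | p :: q :: w => ¬ (p = Lt.c3 ∧ q = Lt.o) ∧ adm (q :: w)

theorem adm_nil : adm [] := trivial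

theorem adm_tail {p : Lt} {w : List Lt} (h : adm (p :: w)) : adm w := by
  cases w with
  | nil => trivial
  | cons q w => exact h.2

theorem adm_cons {p : Lt} {w : List Lt} (hp : p ≠ Lt.c3) (h : adm w) : adm (p :: w) := by
  cases w with
  | nil => trivial
  | cons q w => exact ⟨fun h' => hp h'.1, h⟩

theorem adm_cons' {p : Lt} {w : List Lt} (hw : ∀ w', w ≠ Lt.o :: w') (h : adm w) :
    adm (p :: w) := by
  cases w with
  | nil => trivial
  | cons q w => exact ⟨fun h' => hw w (by rw [h'.2]), h⟩

theorem adm_suffix {w q : List Lt} (h : adm w) (hq : q <:+ w) : adm q := by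
  obtain ⟨p, rfl⟩ := hq
  induction p with
  | nil => exact h
  | cons x p ih => exact ih (adm_tail h)

theorem adm_prefix {w p : List Lt} (h : adm w) (hp : p <+: w) : adm p := by
  obtain ⟨q, rfl⟩ := hp
  induction p with
  | nil => trivial
  | cons x p ih =>
    cases p with
    | nil => trivial
    | cons x' p => exact ⟨h.1, ih h.2⟩

theorem adm_append {w1 w2 : List Lt} (h1 : adm w1) (h2 : adm w2) (ho : ∀ w', w2 ≠ Lt.o :: w') :
    adm (w1 ++ w2) := by
  induction w1 with
  | nil => exact h2
  | cons x p ih =>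
    cases p with
    | nil => exact adm_cons' ho h2
    | cons x' p => exact ⟨h1.1, ih h1.2⟩

variable (K : Type) [Field K]

/-- Agreement on admissible words. -/
def con : RingCon (T Lt K) where
  r s t := ∀ w, adm w → s w = t w
  iseqv := ⟨fun _ _ _ => rfl, fun h w hw => (h w hw).symm,
    fun h h' w hw => (h w hw).trans (h' w hw)⟩
  mul' := fun {s s' t t'} h h' w hw =>
    T.mul_congr w s s' t t' (fun p hp => h p (adm_prefix hw hp))
      (fun q hq => h' q (adm_suffix hw hq))
  add' := fun {s s' t t'} h h' w hw => by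
    rw [T.add_apply, T.add_apply, h w hw, h' w hw]

/-- The ambient ring. -/
def S : Type := (con K).Quotient

instance : Ring (S K) := inferInstanceAs (Ring (con K).Quotient)

instance : Algebra K (S K) := inferInstanceAs (Algebra K (con K).Quotient)

variable {K}

/-- The projection. -/
def mk : T Lt K →+* S K := (con K).mk'

theorem mk_smul (c : K) (s : T Lt K) : mk (c • s) = c • mk s := rfl

theorem mk_surj (s : S K) : ∃ t, mk t = s := Quotient.exists_rep s

theorem mk_eq {s t : T Lt K} : mk s = mk t ↔ ∀ w, adm w → s w = t w := (con K).eq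

open Classical in
/-- Coefficients of a class: zero on non-admissible words. -/
noncomputable def co (s : S K) : T Lt K :=
  Quotient.lift (s := (con K).toSetoid) (fun (t : T Lt K) => (fun w => if adm w then t w else 0 : T Lt K))
    (fun s t h => T.ext' fun w => by
      by_cases hw : adm w
      · simp only [hw, if_true]
        exact h w hw
      · simp only [hw, if_false]) s

theorem co_mk (t : T Lt K) {w : List Lt} (hw : adm w) : co (mk t) w = t w := if_pos hw

theorem co_not_adm (s : S K) {w : List Lt} (hw : ¬ adm w) : co s w = 0 := by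
  obtain ⟨t, rfl⟩ := mk_surj s
  exact if_neg hw

theorem mk_co (s : S K) : mk (co s) = s := by
  obtain ⟨t, rfl⟩ := mk_surj s
  exact mk_eq.mpr fun w hw => co_mk t hw

theorem S_ext {s t : S K} (h : ∀ w, adm w → co s w = co t w) : s = t := by
  rw [← mk_co s, ← mk_co t]
  exact mk_eq.mpr h

theorem co_add (s t : S K) (w : List Lt) : co (s + t) w = co s w + co t w := by
  by_cases hw : adm w
  · conv_lhs => rw [← mk_co s, ← mk_co t, ← map_add, co_mk _ hw]
    rfl
  · simp [co_not_adm _ hw]

theorem co_sub (s t : S K) (w : List Lt) : co (s - t) w = co s w - co t w := by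
  by_cases hw : adm w
  · conv_lhs => rw [← mk_co s, ← mk_co t, ← map_sub, co_mk _ hw]
    rfl
  · simp [co_not_adm _ hw]

theorem co_smul (c : K) (s : S K) (w : List Lt) : co (c • s) w = c * co s w := by
  by_cases hw : adm w
  · conv_lhs => rw [← mk_co s, ← mk_smul, co_mk _ hw]
    rfl
  · simp [co_not_adm _ hw]

theorem co_zero (w : List Lt) : co (0 : S K) w = 0 := by
  by_cases hw : adm w
  · rw [← map_zero mk, co_mk _ hw]
    rfl
  · exact co_not_adm _ hw

theorem co_mul (s t : S K) {w : List Lt} (hw : adm w) : co (s * t) w = (co s * co t) w := by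
  conv_lhs => rw [← mk_co s, ← mk_co t, ← map_mul, co_mk _ hw]

theorem co_one {w : List Lt} (hw : adm w) : co (1 : S K) w = (1 : T Lt K) w := by
  rw [← map_one mk, co_mk _ hw]

/-- The constant term. -/
noncomputable def eps : S K →ₐ[K] K where
  toFun s := co s []
  map_one' := co_one adm_nil
  map_mul' s t := co_mul s t adm_nil
  map_zero' := co_zero []
  map_add' s t := co_add s t []
  commutes' c := by
    rw [Algebra.algebraMap_eq_smul_one, co_smul, co_one adm_nil]
    simp

theorem eps_apply (s : S K) : eps s = co s [] := rfl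

/-- The letters. -/
def lt (p : Lt) : S K := mk (T.letter p)

theorem eps_lt (p : Lt) : eps (lt p : S K) = 0 := by
  rw [eps_apply, lt, co_mk _ adm_nil, T.letter_nil]

/-- Left derivative. -/
noncomputable def Dl (p : Lt) : S K →ₗ[K] S K where
  toFun s := mk (T.D p (co s))
  map_add' s t := by
    rw [← map_add]
    exact mk_eq.mpr fun w _ => co_add s t _
  map_smul' c s := by
    rw [RingHom.id_apply, ← mk_smul]
    exact mk_eq.mpr fun w _ => co_smul c s _

theorem co_Dl (p : Lt) (s : S K) {w : List Lt} (hw : adm w) : co (Dl p s) w = co s (p :: w) :=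
  co_mk _ hw

theorem Dl_mk {p : Lt} (hp : p ≠ Lt.c3) (t : T Lt K) : Dl p (mk t) = mk (T.D p t) :=
  mk_eq.mpr fun _ hw => co_mk t (adm_cons hp hw)

theorem Dl_mul {p : Lt} (hp : p ≠ Lt.c3) (s t : S K) :
    Dl p (s * t) = Dl p s * t + eps s • Dl p t := by
  obtain ⟨s, rfl⟩ := mk_surj s
  obtain ⟨t, rfl⟩ := mk_surj t
  rw [← map_mul, Dl_mk hp, Dl_mk hp, Dl_mk hp, T.D_mul, map_add, map_mul, mk_smul, eps_apply,
    co_mk _ adm_nil]

theorem Dl_one {p : Lt} (hp : p ≠ Lt.c3) : Dl p (1 : S K) = 0 := by
  rw [← map_one mk, Dl_mk hp, ← map_zero mk]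
  rfl

theorem Dl_lt_mul {p : Lt} (hp : p ≠ Lt.c3) (q : Lt) (t : S K) :
    Dl p (lt q * t) = if p = q then t else 0 := by
  rw [Dl_mul hp, eps_lt, zero_smul, add_zero, lt, Dl_mk hp, T.D_letter]
  split_ifs <;> simp

theorem co_lt_mul_cons (p q : Lt) (t : S K) {w : List Lt} (hw : adm (q :: w)) :
    co (lt p * t) (q :: w) = if q = p then co t w else 0 := by
  conv_lhs => rw [← mk_co t, lt, ← map_mul, co_mk _ hw, T.letter_mul_cons]

theorem c3_mul_o : (lt Lt.c3 * lt Lt.o : S K) = 0 := by
  apply S_ext
  intro w hw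
  rw [co_zero]
  cases w with
  | nil => rw [← eps_apply, map_mul, eps_lt, zero_mul]
  | cons q w =>
    rw [co_lt_mul_cons _ _ _ hw]
    split_ifs with h
    · subst h
      rw [lt, co_mk _ (adm_tail hw), T.letter]
      rw [if_neg]
      rintro rfl
      exact hw.1 ⟨rfl, rfl⟩
    · rfl

theorem eq_o_mul_of_c3_mul {b : S K} (h : lt Lt.c3 * b = 0) : b = lt Lt.o * Dl Lt.o b := by
  apply S_ext
  intro w hw
  by_cases ho : ∃ w', w = Lt.o :: w'
  · obtain ⟨w', rfl⟩ := ho
    rw [co_lt_mul_cons _ _ _ hw, if_pos rfl, co_Dl _ _ (adm_tail hw)]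
  · push Not at ho
    have h1 := co_lt_mul_cons Lt.c3 Lt.c3 b (adm_cons' ho hw)
    rw [h, co_zero, if_pos rfl] at h1
    rw [← h1]
    cases w with
    | nil => rw [← eps_apply, map_mul, eps_lt, zero_mul]
    | cons q w =>
      rw [co_lt_mul_cons _ _ _ hw, if_neg]
      rintro rfl
      exact ho w rfl

/-- Elements of order at least `n`. -/
def J (n : ℕ) (s : S K) : Prop := T.Ord n (co s)

theorem J_zero (s : S K) : J 0 s := fun _ h => absurd h (Nat.not_lt_zero _)

theorem J.mul {m n : ℕ} {s t : S K} (hs : J m s) (ht : J n t) : J (m + n) (s * t) := by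
  intro w hw
  by_cases ha : adm w
  · rw [co_mul _ _ ha]
    exact T.Ord.mul hs ht w hw
  · exact co_not_adm _ ha

theorem J.add {n : ℕ} {s t : S K} (hs : J n s) (ht : J n t) : J n (s + t) := by
  intro w hw
  rw [co_add, hs w hw, ht w hw, add_zero]

theorem J_of_zero (n : ℕ) : J n (0 : S K) := fun w _ => co_zero w

theorem J.sum {ι : Type} {n : ℕ} (F : Finset ι) (g : ι → S K) (h : ∀ i ∈ F, J n (g i)) :
    J n (∑ i ∈ F, g i) :=
  Finset.sum_induction g (J n) (fun _ _ => J.add) (J_of_zero n) h

theorem J_one_iff {s : S K} : J 1 s ↔ eps s = 0 := by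
  constructor
  · intro h
    exact h [] (by simp)
  · intro h w hw
    have : w = [] := List.length_eq_zero_iff.mp (by omega)
    subst this
    exact h

theorem J.mono {m n : ℕ} {s : S K} (hs : J n s) (h : m ≤ n) : J m s :=
  fun w hw => hs w (by omega)

theorem eq_zero_of_J {s : S K} (h : ∀ n, J n s) : s = 0 :=
  S_ext fun w _ => by rw [co_zero, h (w.length + 1) w (by omega)]

theorem isUnit_of_eps {s : S K} (h : eps s ≠ 0) : IsUnit s := by
  have h1 : IsUnit ((eps s)⁻¹ • co s) := by
    apply T.isUnit_of_const_one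
    rw [T.smul_apply, ← eps_apply, inv_mul_cancel₀ h]
  have h2 := h1.map mk
  rw [mk_smul, mk_co, Algebra.smul_def] at h2
  have h3 : IsUnit (algebraMap K (S K) (eps s)) := (IsUnit.mk0 _ h).map _
  have := h3.mul h2
  rwa [← mul_assoc, ← map_mul, mul_inv_cancel₀ h, map_one, one_mul] at this

theorem eps_ne_zero_of_isUnit {s : S K} (h : IsUnit s) : eps s ≠ 0 := (h.map eps).ne_zero

theorem exists_min_word {s : S K} (h : s ≠ 0) :
    ∃ w, adm w ∧ co s w ≠ 0 ∧ J w.length s := by
  classical
  have hex : ∃ n, ∃ w : List Lt, w.length = n ∧ co s w ≠ 0 := by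
    by_contra hc
    push Not at hc
    exact h (S_ext fun w _ => by rw [co_zero, hc _ w rfl])
  obtain ⟨w, hw, hw0⟩ := Nat.find_spec hex
  refine ⟨w, ?_, hw0, ?_⟩
  · by_contra ha
    exact hw0 (co_not_adm _ ha)
  · intro w' hw'
    by_contra h0
    exact Nat.find_min hex (hw ▸ hw') ⟨w', rfl, h0⟩

/-- An element not involving words that begin with `o` has zero left annihilator. -/
theorem ann {b e : S K} (h : b * e = 0) (he : e ≠ 0) (ho : Dl Lt.o e = 0) : b = 0 := by
  by_contra hb
  obtain ⟨w1, ha1, h1, hJ1⟩ := exists_min_word hb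
  obtain ⟨w2, ha2, h2, hJ2⟩ := exists_min_word he
  have hw : ∀ w', w2 ≠ Lt.o :: w' := by
    rintro w' rfl
    apply h2
    rw [← co_Dl _ _ (adm_tail ha2), ho, co_zero]
  have h3 := co_mul b e (adm_append ha1 ha2 hw)
  rw [h, co_zero, T.mul_apply_append w1 w2 _ _ hJ1 hJ2] at h3
  exact mul_ne_zero h1 h2 h3.symm

theorem co_mul_lt_concat (p q : Lt) (s : S K) {w : List Lt} (hw : adm (w ++ [q])) :
    co (s * lt p) (w ++ [q]) = if q = p then co s w else 0 := by
  conv_lhs => rw [← mk_co s, lt, ← map_mul, co_mk _ hw, T.mul_letter_concat]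

/-- Right multiples of a letter form a closed set. -/
theorem closed_right (p : Lt) {b : S K} (h : ∀ N, ∃ e : S K, J N (b - e * lt p)) :
    ∃ e : S K, b = e * lt p := by
  refine ⟨mk (fun w => co b (w ++ [p])), S_ext fun w hw => ?_⟩
  obtain ⟨e, he⟩ := h (w.length + 1)
  have h1 := he w (by omega)
  rw [co_sub, sub_eq_zero] at h1
  rcases List.eq_nil_or_concat w with rfl | ⟨w', q, rfl⟩
  · rw [h1, ← eps_apply, ← eps_apply, map_mul, map_mul, eps_lt, mul_zero, mul_zero]
  · rw [List.concat_eq_append] at *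
    rw [co_mul_lt_concat _ _ _ hw]
    split_ifs with hq
    · subst hq
      exact (co_mk (fun w => co b (w ++ [q])) (adm_prefix hw (List.prefix_append _ _))).symm
    · rw [h1, co_mul_lt_concat _ _ _ hw, if_neg hq]

theorem one_ne_zero' : (1 : S K) ≠ 0 := by
  intro h
  have := congrArg eps h
  simp at this

end Pool.Agent.P.MP_17d087_al
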