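import Pool.Agent.P.MP_17d087_al.Quot

/-!
The ring `R` and its first-letter analysis.
-/

set_option autoImplicit false
set_option linter.unusedSectionVars false

namespace Pool.Agent.P.MP_17d087_al

/-- A subfield together with an element outside it. -/
class Par (K : Type) [Field K] where
  k : Subfield K
  th : K
  hth : th ∉ k

/-- The thirteen generators. -/
inductive Gn : Type
  | a | b | f | g | c1 | c2 | c3 | y | v | x | u | z | w
  deriving DecidableEq

instance : Fintype Gn where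
  elems := {.a, .b, .f, .g, .c1, .c2, .c3, .y, .v, .x, .u, .z, .w}
  complete := fun i => by cases i <;> decide

theorem sum_Gn {M : Type} [AddCommMonoid M] (F : Gn → M) :
    ∑ i, F i = F .a + F .b + F .f + F .g + F .c1 + F .c2 + F .c3 + F .y + F .v + F .x + F .u
      + F .z + F .w := by
  have : (Finset.univ : Finset Gn) =
      {.a, .b, .f, .g, .c1, .c2, .c3, .y, .v, .x, .u, .z, .w} := by decide
  rw [this]
  simp [Finset.sum_insert, add_assoc]

variable {K : Type} [Field K] [Par K]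

/-- The subfield. -/
abbrev kk (K : Type) [Field K] [Par K] : Subfield K := Par.k

/-- The element outside the subfield. -/
abbrev th : K := Par.th

theorem indep {s t : K} (hs : s ∈ kk K) (ht : t ∈ kk K) (h : s + t * th = 0) : s = 0 ∧ t = 0 := by
  by_cases h0 : t = 0
  · subst h0
    simpa using h
  · exfalso
    apply Par.hth (K := K)
    have : (th : K) = -s / t := by
      field_simp
      linear_combination h
    show (th : K) ∈ kk K
    rw [this]
    exact div_mem (neg_mem hs) ht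

/-- The element lambda. -/
def lam : S K := (th : K) • (1 : S K) + lt Lt.l

/-- The element nu. -/
def nu : S K := (th : K) • (1 : S K) + lt Lt.n

/-- The generators of `R`. -/
def gen : Gn → S K
  | .a => lt Lt.a
  | .b => lt Lt.a * lam
  | .f => lt Lt.f
  | .g => lt Lt.f * nu
  | .c1 => lt Lt.c1
  | .c2 => -(lt Lt.c1 * lam) - lt Lt.c3 * nu
  | .c3 => lt Lt.c3
  | .y => lt Lt.y
  | .v => lt Lt.v
  | .x => lam * lt Lt.y
  | .u => lam * lt Lt.v
  | .z => nu * lt Lt.y
  | .w => nu * lt Lt.v + lt Lt.o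

theorem eps_gen (i : Gn) : eps (gen i : S K) = 0 := by
  cases i <;> simp [gen, eps_lt]

theorem eps_lam : eps (lam : S K) = th := by simp [lam, eps_lt]

theorem eps_nu : eps (nu : S K) = th := by simp [nu, eps_lt]

theorem lam_mul (r : S K) : lam * r = (th : K) • r + lt Lt.l * r := by
  simp [lam, add_mul]

theorem nu_mul (r : S K) : nu * r = (th : K) • r + lt Lt.n * r := by
  simp [nu, add_mul]

/-- The combination of the generators with right coefficients `t`. -/
def E (t : Gn → S K) : S K := ∑ i, gen i * t i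

theorem E_eq (t : Gn → S K) :
    E t = lt Lt.a * (t .a + lam * t .b) + lt Lt.f * (t .f + nu * t .g)
      + lt Lt.c1 * (t .c1 - lam * t .c2) + lt Lt.c3 * (t .c3 - nu * t .c2)
      + lt Lt.y * (t .y + (th : K) • t .x + (th : K) • t .z)
      + lt Lt.v * (t .v + (th : K) • t .u + (th : K) • t .w)
      + lt Lt.l * (lt Lt.y * t .x + lt Lt.v * t .u)
      + lt Lt.n * (lt Lt.y * t .z + lt Lt.v * t .w) + lt Lt.o * t .w := by
  rw [E, sum_Gn]
  simp only [gen, mul_assoc, add_mul, sub_mul, neg_mul, mul_add, mul_sub, mul_smul_comm]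
  simp only [lam_mul (lt Lt.y * _), lam_mul (lt Lt.v * _), nu_mul (lt Lt.y * _),
    nu_mul (lt Lt.v * _)]
  abel

theorem eps_E (t : Gn → S K) : eps (E t) = 0 := by
  simp [E, eps_gen]

theorem E_sub (t t' : Gn → S K) : E (t - t') = E t - E t' := by
  simp [E, mul_sub, Finset.sum_sub_distrib]

theorem E_add (t t' : Gn → S K) : E (t + t') = E t + E t' := by
  simp [E, mul_add, Finset.sum_add_distrib]

theorem E_mul (t : Gn → S K) (r : S K) : E t * r = E (fun i => t i * r) := by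
  simp [E, Finset.sum_mul, mul_assoc]

theorem E_smul (c : K) (t : Gn → S K) : c • E t = E (fun i => c • t i) := by
  simp [E, Finset.smul_sum]

theorem D_a (t : Gn → S K) : Dl Lt.a (E t) = t .a + lam * t .b := by
  rw [E_eq]; simp [Dl_lt_mul]

theorem D_f (t : Gn → S K) : Dl Lt.f (E t) = t .f + nu * t .g := by
  rw [E_eq]; simp [Dl_lt_mul]

theorem D_c1 (t : Gn → S K) : Dl Lt.c1 (E t) = t .c1 - lam * t .c2 := by
  rw [E_eq]; simp [Dl_lt_mul]

theorem D_y (t : Gn → S K) :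
    Dl Lt.y (E t) = t .y + (th : K) • t .x + (th : K) • t .z := by
  rw [E_eq]; simp [Dl_lt_mul]

theorem D_v (t : Gn → S K) :
    Dl Lt.v (E t) = t .v + (th : K) • t .u + (th : K) • t .w := by
  rw [E_eq]; simp [Dl_lt_mul]

theorem D_l (t : Gn → S K) : Dl Lt.l (E t) = lt Lt.y * t .x + lt Lt.v * t .u := by
  rw [E_eq]; simp [Dl_lt_mul]

theorem D_n (t : Gn → S K) : Dl Lt.n (E t) = lt Lt.y * t .z + lt Lt.v * t .w := by
  rw [E_eq]; simp [Dl_lt_mul]

theorem D_o (t : Gn → S K) : Dl Lt.o (E t) = t .w := by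
  rw [E_eq]; simp [Dl_lt_mul]

theorem yv_inj {d d' : S K} (h : lt Lt.y * d + lt Lt.v * d' = 0) : d = 0 ∧ d' = 0 := by
  have h1 := congrArg (Dl Lt.y) h
  have h2 := congrArg (Dl Lt.v) h
  simp [Dl_lt_mul] at h1 h2
  exact ⟨h1, h2⟩

theorem X_zero {t : Gn → S K} (h : E t = 0) :
    t .x = 0 ∧ t .u = 0 ∧ t .y = 0 ∧ t .v = 0 ∧ t .z = 0 ∧ t .w = 0 := by
  have hl := D_l t
  have hn := D_n t
  have hy := D_y t
  have hv := D_v t
  rw [h, map_zero] at hl hn hy hv
  obtain ⟨h1, h2⟩ := yv_inj hl.symm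
  obtain ⟨h3, h4⟩ := yv_inj hn.symm
  rw [h1, h3] at hy
  rw [h2, h4] at hv
  simp only [smul_zero, add_zero] at hy hv
  exact ⟨h1, h2, hy.symm, hv.symm, h3, h4⟩

/-- Self-supporting sets. -/
def Sup (X : Set (S K)) : Prop :=
  ∀ r ∈ X, ∃ s ∈ kk K, ∃ t : Gn → S K, (∀ i, t i ∈ X) ∧ r = s • (1 : S K) + E t

/-- The union of all self-supporting sets. -/
def Rset (K : Type) [Field K] [Par K] : Set (S K) := {r | ∃ X, Sup X ∧ r ∈ X}

theorem sup_Rset : Sup (Rset K) := by
  rintro r ⟨X, hX, hr⟩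
  obtain ⟨s, hs, t, ht, h⟩ := hX r hr
  exact ⟨s, hs, t, fun i => ⟨X, hX, ht i⟩, h⟩

theorem coind {X : Set (S K)} (hX : Sup X) {r : S K} (hr : r ∈ X) : r ∈ Rset K := ⟨X, hX, hr⟩

theorem E_zero : E (fun _ => (0 : S K)) = 0 := by simp [E]

theorem smul_one_mem {s : K} (hs : s ∈ kk K) : s • (1 : S K) ∈ Rset K := by
  apply coind (X := {r | ∃ s ∈ kk K, r = s • (1 : S K)}) _ ⟨s, hs, rfl⟩
  rintro r ⟨s, hs, rfl⟩
  exact ⟨s, hs, fun _ => 0, fun _ => ⟨0, zero_mem _, by simp⟩, by rw [E_zero, add_zero]⟩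

theorem sup_closure :
    Sup (AddSubmonoid.closure {p : S K | ∃ r ∈ Rset K, ∃ r' ∈ Rset K, p = r * r'} : Set (S K)) := by
  intro r hr
  induction hr using AddSubmonoid.closure_induction with
  | mem p hp =>
    obtain ⟨r, hr, r', hr', rfl⟩ := hp
    obtain ⟨s, hs, t, ht, h⟩ := sup_Rset r hr
    obtain ⟨s', hs', t', ht', h'⟩ := sup_Rset r' hr'
    refine ⟨s * s', mul_mem hs hs', fun i => (s • (1 : S K)) * t' i + t i * r', fun i => ?_, ?_⟩
    · exact add_mem (AddSubmonoid.subset_closure ⟨_, smul_one_mem hs, _, ht' i, rfl⟩)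
        (AddSubmonoid.subset_closure ⟨_, ht i, _, hr', rfl⟩)
    · have e : (fun i => (s • (1 : S K)) * t' i + t i * r')
          = (fun i => s • t' i) + (fun i => t i * r') := by
        funext i
        simp
      rw [e, E_add, ← E_smul, ← E_mul]
      conv_lhs => rw [h, add_mul, smul_mul_assoc, one_mul]
      conv_lhs => rw [show s • r' = s • (s' • (1 : S K) + E t') by rw [← h']]
      rw [smul_add, smul_smul, add_assoc]
  | zero => exact ⟨0, zero_mem _, fun _ => 0, fun _ => zero_mem _, by simp [E_zero]⟩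
  | add p q _ _ hp hq =>
    obtain ⟨s, hs, t, ht, h⟩ := hp
    obtain ⟨s', hs', t', ht', h'⟩ := hq
    refine ⟨s + s', add_mem hs hs', t + t', fun i => add_mem (ht i) (ht' i), ?_⟩
    rw [E_add, h, h', add_smul]
    abel

theorem one_mem_Rset : (1 : S K) ∈ Rset K := by
  simpa using smul_one_mem (K := K) (one_mem _)

/-- The ring `R`. -/
def R (K : Type) [Field K] [Par K] : Subring (S K) where
  carrier := Rset K
  mul_mem' := fun {r r'} hr hr' =>
    coind sup_closure (AddSubmonoid.subset_closure ⟨r, hr, r', hr', rfl⟩)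
  one_mem' := one_mem_Rset
  add_mem' := fun {r r'} hr hr' =>
    coind sup_closure (add_mem
      (AddSubmonoid.subset_closure ⟨r, hr, 1, one_mem_Rset, (mul_one _).symm⟩)
      (AddSubmonoid.subset_closure ⟨r', hr', 1, one_mem_Rset, (mul_one _).symm⟩))
  zero_mem' := by simpa using smul_one_mem (K := K) (zero_mem _)
  neg_mem' := fun {r} hr =>
    coind sup_closure (AddSubmonoid.subset_closure
      ⟨(-1 : K) • (1 : S K), smul_one_mem (neg_mem (one_mem _)), r, hr, by simp⟩)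

theorem smul_mem {s : K} (hs : s ∈ kk K) {r : S K} (hr : r ∈ R K) : s • r ∈ R K := by
  have := (R K).mul_mem (smul_one_mem hs) hr
  simpa using this

theorem dec {r : S K} (hr : r ∈ R K) :
    eps r ∈ kk K ∧ ∃ t : Gn → S K, (∀ i, t i ∈ R K) ∧ r = eps r • (1 : S K) + E t := by
  obtain ⟨s, hs, t, ht, h⟩ := sup_Rset r hr
  have : eps r = s := by
    rw [h]
    simp [eps_E]
  rw [this]
  exact ⟨hs, t, ht, h⟩

theorem eps_mem {r : S K} (hr : r ∈ R K) : eps r ∈ kk K := (dec hr).1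

theorem dec0 {r : S K} (hr : r ∈ R K) (h0 : eps r = 0) :
    ∃ t : Gn → S K, (∀ i, t i ∈ R K) ∧ r = E t := by
  obtain ⟨-, t, ht, h⟩ := dec hr
  rw [h0, zero_smul, zero_add] at h
  exact ⟨t, ht, h⟩

theorem E_single (i : Gn) (r : S K) : E (Pi.single i r) = gen i * r := by
  rw [E, Finset.sum_eq_single i]
  · simp
  · intro j _ hj
    simp [Pi.single_eq_of_ne hj]
  · simp

theorem gen_mem (i : Gn) : (gen i : S K) ∈ R K := by
  apply coind (X := {r | r ∈ R K ∨ r = gen i}) _ (Or.inr rfl)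
  rintro r (hr | rfl)
  · obtain ⟨hs, t, ht, h⟩ := dec hr
    exact ⟨_, hs, t, fun j => Or.inl (ht j), h⟩
  · refine ⟨0, zero_mem _, Pi.single i 1, fun j => Or.inl ?_, by simp [E_single]⟩
    by_cases h : j = i
    · subst h
      simp
    · simp [Pi.single_eq_of_ne h]

theorem inv_mem_R {r i : S K} (hr : r ∈ R K) (h0 : eps r ≠ 0) (hi : r * i = 1) : i ∈ R K := by
  obtain ⟨hs, t, ht, h⟩ := dec hr
  have hi' : i = (eps r)⁻¹ • (1 - E t * i) := by
    have : eps r • i + E t * i = 1 := by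
      rw [← hi]
      conv_rhs => rw [h, add_mul, smul_mul_assoc, one_mul]
    rw [← this, add_sub_cancel_right, smul_smul, inv_mul_cancel₀ h0, one_smul]
  apply coind (X := {p | ∃ r1 ∈ R K, ∃ r2 ∈ R K, p = r1 + r2 * i})
    _ ⟨0, zero_mem _, 1, one_mem _, by simp⟩
  rintro p ⟨r1, h1, r2, h2, rfl⟩
  obtain ⟨hs1, t1, ht1, e1⟩ := dec h1
  obtain ⟨hs2, t2, ht2, e2⟩ := dec h2
  refine ⟨eps r1 + eps r2 * (eps r)⁻¹, add_mem hs1 (mul_mem hs2 (inv_mem hs)),
    fun j => t1 j + (t2 j - (eps r2 * (eps r)⁻¹) • t j) * i,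
    fun j => ⟨t1 j, ht1 j, _, sub_mem (ht2 j) (smul_mem (mul_mem hs2 (inv_mem hs)) (ht j)), rfl⟩, ?_⟩
  have e : (fun j => t1 j + (t2 j - (eps r2 * (eps r)⁻¹) • t j) * i)
      = t1 + fun j => (t2 - fun j => (eps r2 * (eps r)⁻¹) • t j) j * i := rfl
  rw [e, E_add, ← E_mul, E_sub, ← E_smul]
  have e3 : r2 * i = eps r2 • i + E t2 * i := by
    conv_lhs => rw [e2, add_mul, smul_mul_assoc, one_mul]
  have e4 : eps r2 • i = (eps r2 * (eps r)⁻¹) • (1 - E t * i) := by
    conv_lhs => rw [hi']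
    rw [smul_smul]
  rw [e3, e4]
  conv_lhs => rw [e1]
  rw [add_smul, smul_sub, sub_mul, smul_mul_assoc]
  abel

theorem exists_inv {r : S K} (hr : r ∈ R K) (h0 : eps r ≠ 0) :
    ∃ i ∈ R K, r * i = 1 ∧ i * r = 1 := by
  obtain ⟨u, rfl⟩ := isUnit_of_eps h0
  exact ⟨_, inv_mem_R hr h0 u.mul_inv, u.mul_inv, u.inv_mul⟩

theorem Dl_dec {p : Lt} (hp : p ≠ Lt.c3) (s : K) (t : Gn → S K) :
    Dl p (s • (1 : S K) + E t) = Dl p (E t) := by
  rw [map_add, map_smul, Dl_one hp, smul_zero, zero_add]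

theorem lam_mem {r : S K} (hr : r ∈ R K) (h : lam * r ∈ R K) :
    ∃ d ∈ R K, ∃ d' ∈ R K, r = lt Lt.y * d + lt Lt.v * d' := by
  obtain ⟨-, t, -, e⟩ := dec hr
  obtain ⟨-, t', ht', e'⟩ := dec h
  have h1 : Dl Lt.l r = lt Lt.y * t .x + lt Lt.v * t .u := by
    conv_lhs => rw [e]
    rw [Dl_dec (by decide), D_l]
  have h2 : Dl Lt.l (lam * r) = lt Lt.y * t' .x + lt Lt.v * t' .u := by
    conv_lhs => rw [e']
    rw [Dl_dec (by decide), D_l]
  rw [lam_mul, map_add, map_smul, Dl_lt_mul (by decide), if_pos rfl] at h2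
  have h3 : r = lt Lt.y * (t' .x - (th : K) • t .x) + lt Lt.v * (t' .u - (th : K) • t .u) := by
    rw [h1] at h2
    rw [mul_sub, mul_sub, mul_smul_comm, mul_smul_comm]
    refine (eq_sub_of_add_eq' h2).trans ?_
    rw [smul_add]
    abel
  have h4 : Dl Lt.l r = 0 := by
    rw [h3]
    simp [Dl_lt_mul]
  rw [h4, smul_zero, zero_add] at h2
  exact ⟨_, ht' _, _, ht' _, h2⟩

theorem nu_mem {r : S K} (hr : r ∈ R K) (h : nu * r ∈ R K) :
    ∃ d ∈ R K, r = lt Lt.y * d := by
  obtain ⟨-, t, -, e⟩ := dec hr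
  obtain ⟨-, t', ht', e'⟩ := dec h
  have h1 : Dl Lt.n r = lt Lt.y * t .z + lt Lt.v * t .w := by
    conv_lhs => rw [e]
    rw [Dl_dec (by decide), D_n]
  have h2 : Dl Lt.n (nu * r) = lt Lt.y * t' .z + lt Lt.v * t' .w := by
    conv_lhs => rw [e']
    rw [Dl_dec (by decide), D_n]
  rw [nu_mul, map_add, map_smul, Dl_lt_mul (by decide), if_pos rfl] at h2
  have h3 : r = lt Lt.y * (t' .z - (th : K) • t .z) + lt Lt.v * (t' .w - (th : K) • t .w) := by
    rw [h1] at h2
    rw [mul_sub, mul_sub, mul_smul_comm, mul_smul_comm]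
    refine (eq_sub_of_add_eq' h2).trans ?_
    rw [smul_add]
    abel
  have h4 : Dl Lt.n r = 0 := by
    rw [h3]
    simp [Dl_lt_mul]
  rw [h4, smul_zero, zero_add] at h2
  have h5 : Dl Lt.o (nu * r) = t' .w := by
    conv_lhs => rw [e']
    rw [Dl_dec (by decide), D_o]
  have h6 : Dl Lt.o (nu * r) = 0 := by
    rw [nu_mul, h2]
    simp [Dl_lt_mul]
  rw [h6] at h5
  rw [← h5, mul_zero, add_zero] at h2
  exact ⟨_, ht' _, h2⟩

theorem o_mem {b : S K} (h : lt Lt.o * b ∈ R K) : b = 0 := by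
  obtain ⟨-, t, -, e⟩ := dec h
  have h1 : Dl Lt.n (lt Lt.o * b) = lt Lt.y * t .z + lt Lt.v * t .w := by
    conv_lhs => rw [e]
    rw [Dl_dec (by decide), D_n]
  have h2 : Dl Lt.o (lt Lt.o * b) = t .w := by
    conv_lhs => rw [e]
    rw [Dl_dec (by decide), D_o]
  rw [Dl_lt_mul (by decide), if_neg (by decide)] at h1
  rw [Dl_lt_mul (by decide), if_pos rfl] at h2
  rw [h2, (yv_inj h1.symm).2]

/-- All right linear relations between the generators. -/
theorem relations {t : Gn → S K} (ht : ∀ i, t i ∈ R K) (h : E t = 0) :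
    (∃ d ∈ R K, ∃ d' ∈ R K, t .a = gen .x * d + gen .u * d' ∧ t .b = -(gen .y * d + gen .v * d')) ∧
    (∃ d ∈ R K, t .f = gen .z * d ∧ t .g = -(gen .y * d)) ∧
    (∃ d ∈ R K, ∃ d' ∈ R K, t .c1 = gen .x * d + gen .u * d' ∧ t .c2 = gen .y * d + gen .v * d' ∧
      t .c3 = gen .z * d + gen .w * d') := by
  have ha := D_a t
  have hf := D_f t
  have hc := D_c1 t
  rw [h, map_zero] at ha hf hc
  obtain ⟨x1, x2, x3, x4, x5, x6⟩ := X_zero h
  have hc3 : lt Lt.c3 * (t .c3 - nu * t .c2) = 0 := by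
    rw [E_eq, ← ha, ← hf, ← hc, x1, x2, x3, x4, x5, x6] at h
    simpa using h
  refine ⟨?_, ?_, ?_⟩
  · have e : lam * (- t .b) = t .a := by
      rw [mul_neg]
      exact neg_eq_of_add_eq_zero_left ha.symm
    obtain ⟨d, hd, d', hd', h1⟩ := lam_mem (neg_mem (ht .b)) (e ▸ ht .a)
    refine ⟨d, hd, d', hd', ?_, ?_⟩
    · rw [← e, h1]
      simp [gen, mul_add, mul_assoc]
    · rw [← neg_neg (t .b), h1]
      rfl
  · have e : nu * (- t .g) = t .f := by
      rw [mul_neg]
      exact neg_eq_of_add_eq_zero_left hf.symm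
    obtain ⟨d, hd, h1⟩ := nu_mem (neg_mem (ht .g)) (e ▸ ht .f)
    refine ⟨d, hd, ?_, ?_⟩
    · rw [← e, h1]
      simp [gen, mul_assoc]
    · rw [← neg_neg (t .g), h1]
      rfl
  · have e : lam * t .c2 = t .c1 := (sub_eq_zero.mp hc.symm).symm
    obtain ⟨d, hd, d', hd', h1⟩ := lam_mem (ht .c2) (e ▸ ht .c1)
    refine ⟨d, hd, d', hd', ?_, h1, ?_⟩
    · rw [← e, h1]
      simp [gen, mul_add, mul_assoc]
    · have h2 := eq_o_mul_of_c3_mul hc3
      have h3 : t .c3 - (gen .z * d + gen .w * d')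
          = lt Lt.o * (Dl Lt.o (t .c3 - nu * t .c2) - d') := by
        rw [mul_sub, ← h2, h1]
        simp only [gen, mul_add, add_mul, mul_assoc]
        abel
      have h4 := o_mem (h3 ▸ sub_mem (ht .c3)
        (add_mem (mul_mem (gen_mem _) hd) (mul_mem (gen_mem _) hd')))
      rw [h4, mul_zero] at h3
      exact sub_eq_zero.mp h3

theorem rel_c_1 : (gen .c1 * gen .x + gen .c2 * gen .y + gen .c3 * gen .z : S K) = 0 := by
  simp only [gen, mul_assoc, sub_mul, neg_mul]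
  abel

theorem rel_c_2 : (gen .c1 * gen .u + gen .c2 * gen .v + gen .c3 * gen .w : S K) = 0 := by
  simp only [gen, mul_assoc, sub_mul, neg_mul, mul_add, c3_mul_o]
  abel

theorem rel_ab_1 : (gen .a * gen .x : S K) = gen .b * gen .y := by
  simp only [gen, mul_assoc]

theorem rel_ab_2 : (gen .a * gen .u : S K) = gen .b * gen .v := by
  simp only [gen, mul_assoc]

theorem rel_fg : (gen .f * gen .z : S K) = gen .g * gen .y := by
  simp only [gen, mul_assoc]

theorem kappa_ne : (gen .f * gen .w : S K) ≠ gen .g * gen .v := by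
  intro h
  have h1 : (lt Lt.f * (lt Lt.o * 1) : S K) = 0 := by
    simp only [gen, mul_assoc, mul_add] at h
    simpa using h
  have h2 := congrArg (fun s => Dl Lt.o (Dl Lt.f s)) h1
  simp only [map_zero] at h2
  rw [Dl_lt_mul (by decide), if_pos rfl, Dl_lt_mul (by decide), if_pos rfl] at h2
  exact one_ne_zero' h2

end Pool.Agent.P.MP_17d087_al
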