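import Mathlib

/-!
Formal power series in non-commuting letters, as functions on words.
-/

set_option autoImplicit false
set_option linter.unusedSectionVars false

namespace Pool.Agent.P.MP_17d087_al

/-- Non-commutative formal power series on the alphabet `L`. -/
def T (L K : Type) : Type := List L → K

namespace T

variable {L K : Type} [CommRing K]

instance : AddCommGroup (T L K) := (inferInstance : AddCommGroup (List L → K))

instance : Module K (T L K) := (inferInstance : Module K (List L → K))

theorem ext' {s t : T L K} (h : ∀ w, s w = t w) : s = t := funext h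

@[simp] theorem add_apply (s t : T L K) (w : List L) : (s + t) w = s w + t w := rfl
@[simp] theorem sub_apply (s t : T L K) (w : List L) : (s - t) w = s w - t w := rfl
@[simp] theorem neg_apply (s : T L K) (w : List L) : (-s) w = - s w := rfl
@[simp] theorem zero_apply (w : List L) : (0 : T L K) w = 0 := rfl
@[simp] theorem smul_apply (c : K) (s : T L K) (w : List L) : (c • s) w = c * s w := rfl

/-- Left derivative. -/
def D (l : L) (s : T L K) : T L K := fun w => s (l :: w)

@[simp] theorem D_apply (l : L) (s : T L K) (w : List L) : D l s w = s (l :: w) := rfl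

/-- Convolution, coefficientwise. -/
def mulF : T L K → T L K → List L → K
  | s, t, [] => s [] * t []
  | s, t, l :: w => mulF (D l s) t w + s [] * t (l :: w)

/-- Convolution. -/
def mul (s t : T L K) : T L K := fun w => mulF s t w

/-- The unit series. -/
def one : T L K := fun w => match w with
  | [] => 1
  | _ :: _ => 0

theorem mul_nil (s t : T L K) : mul s t [] = s [] * t [] := rfl

theorem mul_cons (s t : T L K) (l : L) (w : List L) :
    mul s t (l :: w) = mul (D l s) t w + s [] * t (l :: w) := rfl

theorem zero_mul' (t : T L K) (w : List L) : mul 0 t w = 0 := by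
  induction w with
  | nil => simp [mul_nil]
  | cons l w ih =>
    have : D l (0 : T L K) = 0 := rfl
    simp [mul_cons, this, ih]

theorem mul_zero' (s : T L K) (w : List L) : mul s 0 w = 0 := by
  induction w generalizing s with
  | nil => simp [mul_nil]
  | cons l w ih => simp [mul_cons, ih]

theorem add_mul' (s s' t : T L K) (w : List L) : mul (s + s') t w = mul s t w + mul s' t w := by
  induction w generalizing s s' with
  | nil => simp [mul_nil, add_mul]
  | cons l w ih =>
    have : D l (s + s') = D l s + D l s' := rfl
    rw [mul_cons, this, ih, mul_cons, mul_cons, add_apply]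
    ring

theorem mul_add' (s t t' : T L K) (w : List L) : mul s (t + t') w = mul s t w + mul s t' w := by
  induction w generalizing s with
  | nil => simp [mul_nil, mul_add]
  | cons l w ih =>
    rw [mul_cons, ih, mul_cons, mul_cons, add_apply]
    ring

theorem smul_mul' (c : K) (s t : T L K) (w : List L) : mul (c • s) t w = c * mul s t w := by
  induction w generalizing s with
  | nil => simp [mul_nil, mul_assoc]
  | cons l w ih =>
    have : D l (c • s) = c • D l s := rfl
    rw [mul_cons, this, ih, mul_cons, smul_apply]
    ring

theorem mul_smul' (c : K) (s t : T L K) (w : List L) : mul s (c • t) w = c * mul s t w := by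
  induction w generalizing s with
  | nil => simp [mul_nil, mul_left_comm]
  | cons l w ih =>
    rw [mul_cons, ih, mul_cons, smul_apply]
    ring

theorem one_mul' (t : T L K) (w : List L) : mul one t w = t w := by
  cases w with
  | nil => simp [mul_nil, one]
  | cons l w =>
    have : D l (one : T L K) = 0 := rfl
    rw [mul_cons, this, zero_mul']
    simp [one]

theorem mul_one' (s : T L K) (w : List L) : mul s one w = s w := by
  induction w generalizing s with
  | nil => simp [mul_nil, one]
  | cons l w ih =>
    rw [mul_cons, ih]
    simp [one]

theorem mul_assoc' (s t u : T L K) (w : List L) :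
    mul (mul s t) u w = mul s (mul t u) w := by
  induction w generalizing s t with
  | nil => simp [mul_nil, mul_assoc]
  | cons l w ih =>
    have h1 : D l (mul s t) = mul (D l s) t + s [] • D l t := by
      apply ext'
      intro w'
      rfl
    rw [mul_cons, h1, add_mul', smul_mul', ih, mul_cons, mul_cons, mul_nil]
    ring

instance : Ring (T L K) where
  mul := mul
  one := one
  mul_assoc s t u := ext' (mul_assoc' s t u)
  one_mul s := ext' (one_mul' s)
  mul_one s := ext' (mul_one' s)
  zero_mul s := ext' (zero_mul' s)
  mul_zero s := ext' (mul_zero' s)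
  left_distrib s t u := ext' (mul_add' s t u)
  right_distrib s t u := ext' (add_mul' s t u)
  __ := (inferInstance : AddCommGroup (T L K))

theorem mul_apply_nil (s t : T L K) : (s * t) [] = s [] * t [] := rfl

theorem mul_apply_cons (s t : T L K) (l : L) (w : List L) :
    (s * t) (l :: w) = (D l s * t) w + s [] * t (l :: w) := rfl

@[simp] theorem one_nil : (1 : T L K) [] = 1 := rfl

@[simp] theorem one_cons (l : L) (w : List L) : (1 : T L K) (l :: w) = 0 := rfl

instance : Algebra K (T L K) :=
  Algebra.ofModule (fun c s t => ext' (smul_mul' c s t)) (fun c s t => ext' (mul_smul' c s t))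

theorem D_mul (l : L) (s t : T L K) : D l (s * t) = D l s * t + s [] • D l t := rfl

/-- The product at `w` only depends on the prefixes and suffixes of `w`. -/
theorem mul_congr (w : List L) (s s' t t' : T L K) (hs : ∀ p, p <+: w → s p = s' p)
    (ht : ∀ q, q <:+ w → t q = t' q) : (s * t) w = (s' * t') w := by
  induction w generalizing s s' with
  | nil => rw [mul_apply_nil, mul_apply_nil, hs [] List.prefix_rfl, ht [] List.suffix_rfl]
  | cons l w ih =>
    rw [mul_apply_cons, mul_apply_cons, hs [] List.nil_prefix, ht _ List.suffix_rfl,
      ih (D l s) (D l s') (fun p hp => hs (l :: p) (by simpa using hp))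
        (fun q hq => ht q (hq.trans (List.suffix_cons l w)))]

/-- Series vanishing on words shorter than `n`. -/
def Ord (n : ℕ) (s : T L K) : Prop := ∀ w : List L, w.length < n → s w = 0

theorem Ord.mul {m n : ℕ} {s t : T L K} (hs : Ord m s) (ht : Ord n t) : Ord (m + n) (s * t) := by
  intro w hw
  induction w generalizing s m with
  | nil =>
    rw [mul_apply_nil]
    rcases Nat.eq_zero_or_pos m with h | h
    · rw [ht [] (by simp at hw ⊢; omega), mul_zero]
    · rw [hs [] (by simpa using h), zero_mul]
  | cons l w ih =>
    rw [mul_apply_cons]
    rcases Nat.eq_zero_or_pos m with h | h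
    · subst h
      rw [ht (l :: w) (by simpa using hw), mul_zero, add_zero]
      exact ih (m := 0) (fun _ h => absurd h (Nat.not_lt_zero _)) (by simp at hw ⊢; omega)
    · rw [hs [] (by simpa using h), zero_mul, add_zero]
      apply ih (m := m - 1)
      · intro w' hw'
        exact hs (l :: w') (by simp; omega)
      · simp at hw
        omega

theorem mul_apply_of_ord (s t : T L K) (w : List L) (ht : Ord w.length t) :
    (s * t) w = s [] * t w := by
  cases w with
  | nil => rfl
  | cons l w =>
    rw [mul_apply_cons]
    have h0 : Ord 0 (D l s) := fun _ h => absurd h (Nat.not_lt_zero _)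
    rw [(h0.mul ht) w (by simp), zero_add]

theorem mul_apply_append (w1 w2 : List L) (s t : T L K) (hs : Ord w1.length s)
    (ht : Ord w2.length t) : (s * t) (w1 ++ w2) = s w1 * t w2 := by
  induction w1 generalizing s with
  | nil => exact mul_apply_of_ord s t w2 ht
  | cons l w ih =>
    rw [List.cons_append, mul_apply_cons, hs [] (by simp), zero_mul, add_zero,
      ih (D l s) (fun w' hw' => hs (l :: w') (by simpa using hw'))]
    rfl

theorem ord_pow {e : T L K} (he : Ord 1 e) (n : ℕ) : Ord n (e ^ n) := by
  induction n with
  | zero => exact fun _ h => absurd h (Nat.not_lt_zero _)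
  | succ n ih =>
    rw [pow_succ]
    exact ih.mul he

theorem sum_apply {ι : Type} (F : Finset ι) (g : ι → T L K) (w : List L) :
    (∑ i ∈ F, g i) w = ∑ i ∈ F, g i w := by
  classical
  induction F using Finset.induction_on with
  | empty => simp
  | insert i F hi ih => rw [Finset.sum_insert hi, Finset.sum_insert hi, add_apply, ih]

theorem exists_right_inv_one (s : T L K) (hs : s [] = 1) : ∃ t : T L K, s * t = 1 := by
  have he : Ord 1 (1 - s) := by
    intro w hw
    have : w = [] := List.length_eq_zero_iff.mp (by omega)
    subst this
    simp [hs]
  let t : T L K := fun w => (∑ j ∈ Finset.range (w.length + 1), (1 - s) ^ j) w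
  refine ⟨t, ext' fun w => ?_⟩
  have h1 : (s * t) w = (s * ∑ j ∈ Finset.range (w.length + 1), (1 - s) ^ j) w := by
    apply mul_congr w _ _ _ _ (fun _ _ => rfl)
    intro q hq
    have hle : q.length ≤ w.length := hq.length_le
    show (∑ j ∈ Finset.range (q.length + 1), (1 - s) ^ j) q = _
    rw [sum_apply, sum_apply]
    apply Finset.sum_subset (Finset.range_subset_range.mpr (by omega))
    intro j _ hj
    apply ord_pow he j q
    simp at hj
    omega
  have h2 : s * ∑ j ∈ Finset.range (w.length + 1), (1 - s) ^ j
      = 1 - (1 - s) ^ (w.length + 1) := by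
    have := mul_neg_geom_sum (1 - s) (w.length + 1)
    rwa [sub_sub_cancel] at this
  rw [h1, h2, sub_apply, ord_pow he _ w (by omega), sub_zero]

theorem isUnit_of_const_one (s : T L K) (hs : s [] = 1) : IsUnit s := by
  obtain ⟨t, ht⟩ := exists_right_inv_one s hs
  have ht0 : t [] = 1 := by
    have := congrFun ht []
    rw [mul_apply_nil, hs, one_mul] at this
    exact this
  obtain ⟨s', hs'⟩ := exists_right_inv_one t ht0
  have : s = s' := by
    calc s = s * (t * s') := by rw [hs', mul_one]
      _ = s' := by rw [← mul_assoc, ht, one_mul]
  subst this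
  exact ⟨⟨s, t, ht, hs'⟩, rfl⟩

variable [DecidableEq L]

/-- A letter as a series. -/
def letter (l : L) : T L K := fun w => if w = [l] then 1 else 0

theorem letter_nil (l : L) : (letter l : T L K) [] = 0 := by simp [letter]

theorem D_letter (l l' : L) : D l (letter l' : T L K) = if l = l' then 1 else 0 := by
  apply ext'
  intro w
  by_cases h : l = l'
  · subst h
    cases w <;> simp [letter]
  · simp [letter, h]

theorem letter_mul_cons (l l' : L) (t : T L K) (w : List L) :
    ((letter l : T L K) * t) (l' :: w) = if l' = l then t w else 0 := by
  rw [mul_apply_cons, letter_nil, zero_mul, add_zero, D_letter]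
  split_ifs <;> simp

theorem letter_mul_nil (l : L) (t : T L K) : ((letter l : T L K) * t) [] = 0 := by
  rw [mul_apply_nil, letter_nil, zero_mul]

theorem mul_letter_nil (l : L) (s : T L K) : (s * (letter l : T L K)) [] = 0 := by
  rw [mul_apply_nil, letter_nil, mul_zero]

theorem mul_letter_concat (l l' : L) (s : T L K) (w : List L) :
    (s * (letter l : T L K)) (w ++ [l']) = if l' = l then s w else 0 := by
  induction w generalizing s with
  | nil =>
    rw [List.nil_append, mul_apply_cons, mul_letter_nil, zero_add]
    simp [letter]
  | cons m w ih =>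
    rw [List.cons_append, mul_apply_cons, ih]
    have : (letter l : T L K) (m :: (w ++ [l'])) = 0 := by simp [letter]
    rw [this, mul_zero, add_zero]
    rfl

end T

end Pool.Agent.P.MP_17d087_al
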