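import Pool.Agent.P.MP_17d087_al.Ring

/-!
Left linear relations between two elements of `R`.
-/

set_option autoImplicit false
set_option linter.unusedSectionVars false

namespace Pool.Agent.P.MP_17d087_al

variable {K : Type} [Field K] [Par K]

/-- Pairs. -/
abbrev V (K : Type) [Field K] : Type := S K × S K

/-- Pairs of elements of `R`. -/
def RR (K : Type) [Field K] [Par K] : AddSubgroup (V K) where
  carrier := {p | p.1 ∈ R K ∧ p.2 ∈ R K}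
  add_mem' := fun h h' => ⟨add_mem h.1 h'.1, add_mem h.2 h'.2⟩
  zero_mem' := ⟨zero_mem _, zero_mem _⟩
  neg_mem' := fun h => ⟨neg_mem h.1, neg_mem h.2⟩

theorem RR_smul {r : S K} (hr : r ∈ R K) {p : V K} (hp : p ∈ RR K) : r • p ∈ RR K :=
  ⟨mul_mem hr hp.1, mul_mem hr hp.2⟩

theorem RR_ksmul {c : K} (hc : c ∈ kk K) {p : V K} (hp : p ∈ RR K) : c • p ∈ RR K :=
  ⟨smul_mem hc hp.1, smul_mem hc hp.2⟩

/-- The pairing with a column. -/
def ph (q : V K) : V K →ₗ[S K] S K where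
  toFun p := p.1 * q.1 + p.2 * q.2
  map_add' p p' := by
    simp only [Prod.fst_add, Prod.snd_add, add_mul]
    abel
  map_smul' r p := by simp [mul_add, mul_assoc]

theorem ph_apply (q p : V K) : ph q p = p.1 * q.1 + p.2 * q.2 := rfl

theorem ph_ksmul (q p : V K) (c : K) : ph q (c • p) = c • ph q p := by
  simp [ph_apply]

theorem ph_mem {q p : V K} (hq : q ∈ RR K) (hp : p ∈ RR K) : ph q p ∈ R K :=
  add_mem (mul_mem hp.1 hq.1) (mul_mem hp.2 hq.2)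

/-- The relations. -/
def Lq (q : V K) : AddSubgroup (V K) where
  carrier := {p | p ∈ RR K ∧ ph q p = 0}
  add_mem' := fun h h' => ⟨add_mem h.1 h'.1, by rw [map_add, h.2, h'.2, add_zero]⟩
  zero_mem' := ⟨zero_mem _, map_zero _⟩
  neg_mem' := fun h => ⟨neg_mem h.1, by rw [map_neg, h.2, neg_zero]⟩

/-- The left ideal generated by the column. -/
def Nq (q : V K) (e : S K) : Prop := ∃ n ∈ RR K, ph q n = e

theorem Nq_ksmul {q : V K} {e : S K} {c : K} (hc : c ∈ kk K) (h0 : c ≠ 0) (h : Nq q (c • e)) :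
    Nq q e := by
  obtain ⟨n, hn, h⟩ := h
  refine ⟨c⁻¹ • n, RR_ksmul (inv_mem hc) hn, ?_⟩
  rw [ph_ksmul, h, smul_smul, inv_mul_cancel₀ h0, one_smul]

/-- Combination of pairs with the generators. -/
def EV (P : Gn → V K) : V K := ∑ i, (gen i : S K) • P i

theorem EV_fst (P : Gn → V K) : (EV P).1 = E (fun i => (P i).1) := by
  simp [EV, E, Prod.fst_sum]

theorem EV_snd (P : Gn → V K) : (EV P).2 = E (fun i => (P i).2) := by
  simp [EV, E, Prod.snd_sum]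

theorem ph_EV (q : V K) (P : Gn → V K) : ph q (EV P) = E (fun i => ph q (P i)) := by
  simp [EV, E]

theorem decV {p : V K} (hp : p ∈ RR K) (h1 : eps p.1 = 0) (h2 : eps p.2 = 0) :
    ∃ P : Gn → V K, (∀ i, P i ∈ RR K) ∧ p = EV P := by
  obtain ⟨t1, ht1, e1⟩ := dec0 hp.1 h1
  obtain ⟨t2, ht2, e2⟩ := dec0 hp.2 h2
  refine ⟨fun i => (t1 i, t2 i), fun i => ⟨ht1 i, ht2 i⟩, Prod.ext ?_ ?_⟩
  · rw [EV_fst, e1]
  · rw [EV_snd, e2]

/-- The radical multiple of the module of relations. -/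
def Jq (q : V K) : AddSubgroup (V K) where
  carrier := {p | ∃ P : Gn → V K, (∀ i, P i ∈ Lq q) ∧ p = EV P}
  add_mem' := by
    rintro _ _ ⟨P, hP, rfl⟩ ⟨P', hP', rfl⟩
    exact ⟨P + P', fun i => add_mem (hP i) (hP' i), by simp [EV, Finset.sum_add_distrib]⟩
  zero_mem' := ⟨0, fun i => zero_mem _, by simp [EV]⟩
  neg_mem' := by
    rintro _ ⟨P, hP, rfl⟩
    exact ⟨-P, fun i => neg_mem (hP i), by simp [EV]⟩

theorem Jq_single {q p : V K} (i : Gn) (hp : p ∈ Lq q) : (gen i : S K) • p ∈ Jq q := by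
  refine ⟨Pi.single i p, fun j => ?_, ?_⟩
  · by_cases h : j = i
    · subst h
      simpa using hp
    · simp [Pi.single_eq_of_ne h]
  · rw [EV, Finset.sum_eq_single i]
    · simp
    · intro j _ hj
      simp [Pi.single_eq_of_ne hj]
    · simp

theorem X_comp {t : Gn → S K} {e1 e2 e3 e4 e5 e6 : S K}
    (h : E t = gen .x * e1 + gen .u * e2 + gen .y * e3 + gen .v * e4 + gen .z * e5 + gen .w * e6) :
    t .x = e1 ∧ t .u = e2 ∧ t .y = e3 ∧ t .v = e4 ∧ t .z = e5 ∧ t .w = e6 := by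
  let t' : Gn → S K := fun i => match i with
    | .x => e1 | .u => e2 | .y => e3 | .v => e4 | .z => e5 | .w => e6 | _ => 0
  have h1 : E t' = E t := by
    rw [h, E, sum_Gn]
    simp only [t', mul_zero, zero_add]
    abel
  have h2 : E (t - t') = 0 := by rw [E_sub, h1, sub_self]
  simpa only [Pi.sub_apply, sub_eq_zero] using X_zero h2

theorem Xext {q n : V K} (hn : n ∈ RR K) (h1 : eps n.1 = 0) (h2 : eps n.2 = 0)
    {e1 e2 e3 e4 e5 e6 : S K}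
    (h : ph q n = gen .x * e1 + gen .u * e2 + gen .y * e3 + gen .v * e4 + gen .z * e5
      + gen .w * e6) :
    Nq q e1 ∧ Nq q e2 ∧ Nq q e3 ∧ Nq q e4 ∧ Nq q e5 ∧ Nq q e6 := by
  obtain ⟨P, hP, rfl⟩ := decV hn h1 h2
  rw [ph_EV] at h
  obtain ⟨a1, a2, a3, a4, a5, a6⟩ := X_comp h
  exact ⟨⟨_, hP _, a1⟩, ⟨_, hP _, a2⟩, ⟨_, hP _, a3⟩, ⟨_, hP _, a4⟩, ⟨_, hP _, a5⟩, ⟨_, hP _, a6⟩⟩

theorem dN {q n : V K} (hn : n ∈ RR K) (h1 : eps n.1 = 0) (h2 : eps n.2 = 0) {α β γ : K}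
    (hα : α ∈ kk K) (hβ : β ∈ kk K) (hγ : γ ∈ kk K) (h0 : α ≠ 0 ∨ β ≠ 0 ∨ γ ≠ 0) {d d' : S K}
    (h : ph q n = α • (gen .x * d + gen .u * d') + β • (gen .y * d + gen .v * d')
      + γ • (gen .z * d + gen .w * d')) : Nq q d ∧ Nq q d' := by
  obtain ⟨a1, a2, a3, a4, a5, a6⟩ := Xext (q := q) hn h1 h2 (e1 := α • d) (e2 := α • d')
    (e3 := β • d) (e4 := β • d') (e5 := γ • d) (e6 := γ • d') (by
      rw [h]
      simp only [smul_add, mul_smul_comm]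
      abel)
  rcases h0 with h0 | h0 | h0
  · exact ⟨Nq_ksmul hα h0 a1, Nq_ksmul hα h0 a2⟩
  · exact ⟨Nq_ksmul hβ h0 a3, Nq_ksmul hβ h0 a4⟩
  · exact ⟨Nq_ksmul hγ h0 a5, Nq_ksmul hγ h0 a6⟩

theorem dep2 {a1 a2 b1 b2 : K} (ha1 : a1 ∈ kk K) (ha2 : a2 ∈ kk K) (hb1 : b1 ∈ kk K)
    (hb2 : b2 ∈ kk K) (h : a1 * b2 - a2 * b1 = 0) :
    ∃ α ∈ kk K, ∃ β ∈ kk K, (α ≠ 0 ∨ β ≠ 0) ∧ α * a1 + β * b1 = 0 ∧ α * a2 + β * b2 = 0 := by
  by_cases h1 : a1 = 0
  · by_cases h2 : a2 = 0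
    · exact ⟨1, one_mem _, 0, zero_mem _, Or.inl one_ne_zero, by simp [h1], by simp [h2]⟩
    · exact ⟨b2, hb2, -a2, neg_mem ha2, Or.inr (neg_ne_zero.mpr h2), by linear_combination h,
        by ring⟩
  · exact ⟨b1, hb1, -a1, neg_mem ha1, Or.inr (neg_ne_zero.mpr h1), by ring,
      by linear_combination -h⟩

theorem dep3 {a1 a2 b1 b2 c1 c2 : K} (ha1 : a1 ∈ kk K) (ha2 : a2 ∈ kk K) (hb1 : b1 ∈ kk K)
    (hb2 : b2 ∈ kk K) (hc1 : c1 ∈ kk K) (hc2 : c2 ∈ kk K) :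
    ∃ α ∈ kk K, ∃ β ∈ kk K, ∃ γ ∈ kk K, (α ≠ 0 ∨ β ≠ 0 ∨ γ ≠ 0) ∧
      α * a1 + β * b1 + γ * c1 = 0 ∧ α * a2 + β * b2 + γ * c2 = 0 := by
  by_cases h : a1 * b2 - a2 * b1 = 0
  · obtain ⟨α, hα, β, hβ, h0, h1, h2⟩ := dep2 ha1 ha2 hb1 hb2 h
    exact ⟨α, hα, β, hβ, 0, zero_mem _, by tauto, by simpa using h1, by simpa using h2⟩
  · exact ⟨b1 * c2 - b2 * c1, sub_mem (mul_mem hb1 hc2) (mul_mem hb2 hc1), c1 * a2 - c2 * a1,
      sub_mem (mul_mem hc1 ha2) (mul_mem hc2 ha1), a1 * b2 - a2 * b1,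
      sub_mem (mul_mem ha1 hb2) (mul_mem ha2 hb1), Or.inr (Or.inr h), by ring, by ring⟩

theorem redAB {q Pa Pb : V K} (ha : Pa ∈ RR K) (hb : Pb ∈ RR K) {d d' : S K}
    (h1 : ph q Pa = gen .x * d + gen .u * d') (h2 : ph q Pb = -(gen .y * d + gen .v * d'))
    (hd : Nq q d) (hd' : Nq q d') : (gen .a : S K) • Pa + (gen .b : S K) • Pb ∈ Jq q := by
  obtain ⟨n, hn, rfl⟩ := hd
  obtain ⟨n', hn', rfl⟩ := hd'
  have m1 : Pa - (gen .x : S K) • n - (gen .u : S K) • n' ∈ Lq q :=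
    ⟨sub_mem (sub_mem ha (RR_smul (gen_mem _) hn)) (RR_smul (gen_mem _) hn'), by
      simp [h1]⟩
  have m2 : Pb + (gen .y : S K) • n + (gen .v : S K) • n' ∈ Lq q :=
    ⟨add_mem (add_mem hb (RR_smul (gen_mem _) hn)) (RR_smul (gen_mem _) hn'), by
      simp [h2]⟩
  convert add_mem (Jq_single .a m1) (Jq_single .b m2) using 1
  simp only [smul_sub, smul_add, smul_smul, rel_ab_1, rel_ab_2]
  abel

theorem redFG {q Pf Pg : V K} (hf : Pf ∈ RR K) (hg : Pg ∈ RR K) {d : S K}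
    (h1 : ph q Pf = gen .z * d) (h2 : ph q Pg = -(gen .y * d))
    (hd : Nq q d) : (gen .f : S K) • Pf + (gen .g : S K) • Pg ∈ Jq q := by
  obtain ⟨n, hn, rfl⟩ := hd
  have m1 : Pf - (gen .z : S K) • n ∈ Lq q :=
    ⟨sub_mem hf (RR_smul (gen_mem _) hn), by simp [h1]⟩
  have m2 : Pg + (gen .y : S K) • n ∈ Lq q :=
    ⟨add_mem hg (RR_smul (gen_mem _) hn), by simp [h2]⟩
  convert add_mem (Jq_single .f m1) (Jq_single .g m2) using 1
  simp only [smul_sub, smul_add, smul_smul, rel_fg]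
  abel

theorem redC {q P1 P2 P3 : V K} (h1 : P1 ∈ RR K) (h2 : P2 ∈ RR K) (h3 : P3 ∈ RR K) {d d' : S K}
    (e1 : ph q P1 = gen .x * d + gen .u * d') (e2 : ph q P2 = gen .y * d + gen .v * d')
    (e3 : ph q P3 = gen .z * d + gen .w * d') :
    (gen .c1 : S K) • P1 + (gen .c2 : S K) • P2 + (gen .c3 : S K) • P3 ∈ Jq q := by
  obtain ⟨α, hα, β, hβ, γ, hγ, h0, d1, d2⟩ := dep3 (eps_mem h1.1) (eps_mem h1.2) (eps_mem h2.1)
    (eps_mem h2.2) (eps_mem h3.1) (eps_mem h3.2)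
  obtain ⟨⟨n, hn, rfl⟩, ⟨n', hn', rfl⟩⟩ := dN (q := q) (n := α • P1 + β • P2 + γ • P3)
    (add_mem (add_mem (RR_ksmul hα h1) (RR_ksmul hβ h2)) (RR_ksmul hγ h3))
    (by simpa using d1) (by simpa using d2) hα hβ hγ h0 (d := d) (d' := d')
    (by rw [map_add, map_add, ph_ksmul, ph_ksmul, ph_ksmul, e1, e2, e3])
  have m1 : P1 - (gen .x : S K) • n - (gen .u : S K) • n' ∈ Lq q :=
    ⟨sub_mem (sub_mem h1 (RR_smul (gen_mem _) hn)) (RR_smul (gen_mem _) hn'), by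
      simp [e1]⟩
  have m2 : P2 - (gen .y : S K) • n - (gen .v : S K) • n' ∈ Lq q :=
    ⟨sub_mem (sub_mem h2 (RR_smul (gen_mem _) hn)) (RR_smul (gen_mem _) hn'), by
      simp [e2]⟩
  have m3 : P3 - (gen .z : S K) • n - (gen .w : S K) • n' ∈ Lq q :=
    ⟨sub_mem (sub_mem h3 (RR_smul (gen_mem _) hn)) (RR_smul (gen_mem _) hn'), by
      simp [e3]⟩
  have z1 : ((gen .c1 * gen .x + gen .c2 * gen .y + gen .c3 * gen .z : S K)) • n = 0 := by
    rw [rel_c_1, zero_smul]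
  have z2 : ((gen .c1 * gen .u + gen .c2 * gen .v + gen .c3 * gen .w : S K)) • n' = 0 := by
    rw [rel_c_2, zero_smul]
  convert add_mem (add_mem (Jq_single .c1 m1) (Jq_single .c2 m2)) (Jq_single .c3 m3) using 1
  simp only [smul_sub, smul_smul]
  rw [add_smul, add_smul] at z1 z2
  rw [← sub_zero (_ + _ + _), ← sub_zero (_ - _)]
  nth_rewrite 1 [← z1]
  rw [← z2]
  abel

theorem peel {q p : V K} (hq : q ∈ RR K) (hp : p ∈ Lq q) (h1 : eps p.1 = 0) (h2 : eps p.2 = 0) :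
    ∃ Pa ∈ RR K, ∃ Pb ∈ RR K, ∃ Pf ∈ RR K, ∃ Pg ∈ RR K, ∃ d1 ∈ R K, ∃ d2 ∈ R K, ∃ d5 ∈ R K,
      ph q Pa = gen .x * d1 + gen .u * d2 ∧ ph q Pb = -(gen .y * d1 + gen .v * d2) ∧
      ph q Pf = gen .z * d5 ∧ ph q Pg = -(gen .y * d5) ∧
      p - ((gen .a : S K) • Pa + (gen .b : S K) • Pb)
        - ((gen .f : S K) • Pf + (gen .g : S K) • Pg) ∈ Jq q := by
  obtain ⟨P, hP, rfl⟩ := decV hp.1 h1 h2
  have h0 := hp.2
  rw [ph_EV] at h0
  obtain ⟨⟨d1, hd1, d2, hd2, a1, a2⟩, ⟨d5, hd5, a3, a4⟩, ⟨d3, -, d4, -, a5, a6, a7⟩⟩ :=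
    relations (fun i => ph_mem hq (hP i)) h0
  obtain ⟨x1, x2, x3, x4, x5, x6⟩ := X_zero h0
  refine ⟨_, hP .a, _, hP .b, _, hP .f, _, hP .g, d1, hd1, d2, hd2, d5, hd5, a1, a2, a3, a4, ?_⟩
  have := add_mem (add_mem (add_mem (add_mem (add_mem (add_mem
    (redC (hP .c1) (hP .c2) (hP .c3) a5 a6 a7) (Jq_single .y ⟨hP _, x3⟩))
    (Jq_single .v ⟨hP _, x4⟩)) (Jq_single .x ⟨hP _, x1⟩)) (Jq_single .u ⟨hP _, x2⟩))
    (Jq_single .z ⟨hP _, x5⟩)) (Jq_single .w ⟨hP _, x6⟩)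
  convert this using 1
  rw [EV, sum_Gn]
  abel

/-- The determinant of the constant terms. -/
noncomputable def det (P Q : V K) : K := eps P.1 * eps Q.2 - eps P.2 * eps Q.1

/-- The column is equivalent to a standard one. -/
def Fam (q : V K) (μ : S K) : Prop :=
  ∃ P ∈ RR K, ∃ Q ∈ RR K, ∃ η ∈ R K, μ * η ∈ R K ∧ det P Q ≠ 0 ∧ ph q P = μ * η ∧ ph q Q = -η

theorem lam_yv (d d' : S K) : lam * (gen .y * d + gen .v * d') = gen .x * d + gen .u * d' := by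
  simp [gen, mul_add, mul_assoc]

theorem nu_y (d : S K) : nu * (gen .y * d) = gen .z * d := by
  simp [gen, mul_assoc]

theorem reduce {q p : V K} (hq : q ∈ RR K) (n1 : ¬ Fam q lam) (n2 : ¬ Fam q nu) (hp : p ∈ Lq q)
    (h1 : eps p.1 = 0) (h2 : eps p.2 = 0) : p ∈ Jq q := by
  obtain ⟨Pa, ha, Pb, hb, Pf, hf, Pg, hg, d1, hd1, d2, hd2, d5, hd5, a1, a2, a3, a4, hJ⟩ :=
    peel hq hp h1 h2
  have m1 : (gen .a : S K) • Pa + (gen .b : S K) • Pb ∈ Jq q := by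
    have hdet : det Pa Pb = 0 := by
      by_contra h
      exact n1 ⟨Pa, ha, Pb, hb, _, add_mem (mul_mem (gen_mem .y) hd1) (mul_mem (gen_mem .v) hd2),
        by rw [lam_yv, ← a1]; exact ph_mem hq ha, h, by rw [lam_yv, a1], a2⟩
    obtain ⟨α, hα, β, hβ, h0, e1, e2⟩ :=
      dep2 (eps_mem ha.1) (eps_mem ha.2) (eps_mem hb.1) (eps_mem hb.2) hdet
    obtain ⟨k1, k2⟩ := dN (q := q) (n := α • Pa + β • Pb)
      (add_mem (RR_ksmul hα ha) (RR_ksmul hβ hb)) (by simpa using e1) (by simpa using e2)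
      hα (neg_mem hβ) (zero_mem _) (by simpa using h0) (d := d1) (d' := d2)
      (by rw [map_add, ph_ksmul, ph_ksmul, a1, a2, zero_smul, add_zero, smul_neg, neg_smul])
    exact redAB ha hb a1 a2 k1 k2
  have m2 : (gen .f : S K) • Pf + (gen .g : S K) • Pg ∈ Jq q := by
    have hdet : det Pf Pg = 0 := by
      by_contra h
      exact n2 ⟨Pf, hf, Pg, hg, _, mul_mem (gen_mem .y) hd5,
        by rw [nu_y, ← a3]; exact ph_mem hq hf, h, by rw [nu_y, a3], a4⟩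
    obtain ⟨α, hα, β, hβ, h0, e1, e2⟩ :=
      dep2 (eps_mem hf.1) (eps_mem hf.2) (eps_mem hg.1) (eps_mem hg.2) hdet
    obtain ⟨k1, -⟩ := dN (q := q) (n := α • Pf + β • Pg)
      (add_mem (RR_ksmul hα hf) (RR_ksmul hβ hg)) (by simpa using e1) (by simpa using e2)
      (zero_mem _) (neg_mem hβ) hα (by simpa [or_comm] using h0) (d := d5) (d' := 0)
      (by
        rw [map_add, ph_ksmul, ph_ksmul, a3, a4]
        simp [add_comm])
    exact redFG hf hg a3 a4 k1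
  simpa using add_mem (add_mem hJ m2) m1

theorem J_E {n : ℕ} {t : Gn → S K} (h : ∀ i, J n (t i)) : J (n + 1) (E t) := by
  apply J.sum
  intro i _
  rw [add_comm]
  exact (J_one_iff.mpr (eps_gen i)).mul (h i)

theorem isUnit_pm {p q μ : S K} (hp : p ∈ R K) (hq : q ∈ R K) (hμ : eps μ = th)
    (h : eps p ≠ 0 ∨ eps q ≠ 0) : IsUnit (p + q * μ) := by
  apply isUnit_of_eps
  intro h0
  rw [map_add, map_mul, hμ] at h0
  obtain ⟨h1, h2⟩ := indep (eps_mem hp) (eps_mem hq) h0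
  tauto

theorem isUnit_pm' {p q μ : S K} (hp : p ∈ R K) (hq : q ∈ R K) (hμ : eps μ = th)
    (h : eps p ≠ 0 ∨ eps q ≠ 0) : IsUnit (p + μ * q) := by
  apply isUnit_of_eps
  intro h0
  rw [map_add, map_mul, hμ, mul_comm] at h0
  obtain ⟨h1, h2⟩ := indep (eps_mem hp) (eps_mem hq) h0
  tauto

theorem det_col1 {P Q : V K} (h : det P Q ≠ 0) : eps P.1 ≠ 0 ∨ eps Q.1 ≠ 0 := by
  by_contra hc
  push Not at hc
  simp [det, hc.1, hc.2] at h

theorem det_col2 {P Q : V K} (h : det P Q ≠ 0) : eps P.2 ≠ 0 ∨ eps Q.2 ≠ 0 := by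
  by_contra hc
  push Not at hc
  simp [det, hc.1, hc.2] at h

/-- The ring `R` has no zero divisors. -/
theorem domain {r s : S K} (hr : r ∈ R K) (hs : s ∈ R K) (h : r * s = 0) (h0 : s ≠ 0) : r = 0 := by
  have hq : ((s, 0) : V K) ∈ RR K := ⟨hs, zero_mem _⟩
  have nf : ∀ μ : S K, eps μ = th → ¬ Fam ((s, 0) : V K) μ := by
    rintro μ hμ ⟨P, hP, Q, hQ, η, -, -, hdet, e1, e2⟩
    have hu := isUnit_pm' hP.1 hQ.1 hμ (det_col1 hdet)
    simp only [ph_apply, mul_zero, add_zero] at e1 e2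
    apply h0
    apply hu.mul_left_cancel
    rw [add_mul, mul_assoc, e1, e2, mul_neg, add_neg_cancel, mul_zero]
  have key : ∀ n, ∀ r ∈ R K, r * s = 0 → J n r := by
    intro n
    induction n with
    | zero => exact fun r _ _ => J_zero r
    | succ n ih =>
      intro r hr h
      have e : eps r = 0 := by
        by_contra e
        exact h0 ((isUnit_of_eps e).mul_left_cancel (by rw [h, mul_zero]))
      obtain ⟨P, hP, e'⟩ := reduce hq (nf _ eps_lam) (nf _ eps_nu) (p := (r, 0))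
        ⟨⟨hr, zero_mem _⟩, by simp [ph_apply, h]⟩ e (map_zero _)
      have e1 : r = E (fun i => (P i).1) := by rw [← EV_fst, ← e']
      rw [e1]
      exact J_E fun i => ih _ (hP i).1.1 (by simpa [ph_apply] using (hP i).2)
  exact eq_zero_of_J fun n => key n r hr h

theorem cancel_right {r r' s : S K} (hr : r ∈ R K) (hr' : r' ∈ R K) (hs : s ∈ R K) (h0 : s ≠ 0)
    (h : r * s = r' * s) : r = r' :=
  sub_eq_zero.mp (domain (sub_mem hr hr') hs (by rw [sub_mul, h, sub_self]) h0)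

theorem cancel_left {r s s' : S K} (hr : r ∈ R K) (hs : s ∈ R K) (hs' : s' ∈ R K) (h0 : r ≠ 0)
    (h : r * s = r * s') : s = s' := by
  by_contra hne
  exact h0 (domain hr (sub_mem hs hs') (by rw [mul_sub, h, sub_self]) (sub_ne_zero.mpr hne))

/-- Two rows with invertible constant matrix generate all rows. -/
theorem span_all {P Q : V K} (hP : P ∈ RR K) (hQ : Q ∈ RR K) (h : det P Q ≠ 0) {p : V K}
    (hp : p ∈ RR K) : ∃ s ∈ R K, ∃ t ∈ R K, p = s • P + t • Q := by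
  let Sp : V K → Prop := fun p => ∃ s ∈ R K, ∃ t ∈ R K, p = s • P + t • Q
  have s1 : ∀ p p', Sp p → Sp p' → Sp (p + p') := by
    rintro _ _ ⟨s, hs, t, ht, rfl⟩ ⟨s', hs', t', ht', rfl⟩
    refine ⟨_, add_mem hs hs', _, add_mem ht ht', ?_⟩
    rw [add_smul, add_smul]
    abel
  have s2 : ∀ r ∈ R K, ∀ p, Sp p → Sp (r • p) := by
    rintro r hr _ ⟨s, hs, t, ht, rfl⟩
    exact ⟨_, mul_mem hr hs, _, mul_mem hr ht, by rw [smul_add, smul_smul, smul_smul]⟩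
  have s3 : ∀ α ∈ kk K, ∀ β ∈ kk K, Sp (α • P + β • Q) := fun α hα β hβ =>
    ⟨_, smul_one_mem hα, _, smul_one_mem hβ, by simp⟩
  obtain ⟨A, hA, sA, a1, a2⟩ : ∃ A ∈ RR K, Sp A ∧ eps A.1 ≠ 0 ∧ eps A.2 = 0 :=
    ⟨eps Q.2 • P + (-eps P.2) • Q,
      add_mem (RR_ksmul (eps_mem hQ.2) hP) (RR_ksmul (neg_mem (eps_mem hP.2)) hQ),
      s3 _ (eps_mem hQ.2) _ (neg_mem (eps_mem hP.2)), by
        intro h0
        apply h
        simp at h0
        rw [det]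
        linear_combination h0, by
        simp
        ring⟩
  obtain ⟨B, hB, sB, b2⟩ : ∃ B ∈ RR K, Sp B ∧ eps B.2 ≠ 0 := by
    rcases det_col2 h with h' | h'
    · exact ⟨P, hP, by simpa using s3 1 (one_mem _) 0 (zero_mem _), h'⟩
    · exact ⟨Q, hQ, by simpa using s3 0 (zero_mem _) 1 (one_mem _), h'⟩
  obtain ⟨i, hi, -, i2⟩ := exists_inv hA.1 a1
  obtain ⟨j, hj, -, j2⟩ := exists_inv (r := B.2 - B.1 * i * A.2)
    (sub_mem hB.2 (mul_mem (mul_mem hB.1 hi) hA.2)) (by simpa [a2] using b2)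
  have t2 : Sp ((0, 1) : V K) := by
    have := s2 j hj _ (s1 _ _ sB (s2 _ (neg_mem (mul_mem hB.1 hi)) _ sA))
    convert this using 1
    ext
    · simp [mul_assoc, i2]
    · simp [← j2, sub_eq_add_neg, mul_add]
  have t1 : Sp ((1, 0) : V K) := by
    have := s2 i hi _ (s1 _ _ sA (s2 _ (neg_mem hA.2) _ t2))
    convert this using 1
    ext
    · simp [i2]
    · simp
  have := s1 _ _ (s2 _ hp.1 _ t1) (s2 _ hp.2 _ t2)
  simpa using this

end Pool.Agent.P.MP_17d087_al
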