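import Pool.Agent.P.MP_17d087_al.Struct

/-!
Two-term relations in `R`.
-/

set_option autoImplicit false
set_option linter.unusedSectionVars false

namespace Pool.Agent.P.MP_17d087_al

variable {K : Type} [Field K] [Par K]

theorem lt_ne_zero {p : Lt} (hp : p ≠ Lt.c3) : (lt p : S K) ≠ 0 := by
  intro h
  have h1 := Dl_lt_mul (K := K) hp p 1
  rw [h, zero_mul, map_zero, if_pos rfl] at h1
  exact one_ne_zero' h1.symm

theorem ann_lt {p : Lt} (hp : p ≠ Lt.c3) (ho : p ≠ Lt.o) {b : S K} (h : b * lt p = 0) : b = 0 := by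
  apply ann h (lt_ne_zero hp)
  have := Dl_lt_mul (K := K) (p := Lt.o) (by decide) p 1
  rwa [mul_one, if_neg ho.symm] at this

theorem right_mult {p : Lt} (hp : p ≠ Lt.c3) (ho : p ≠ Lt.o) {X : Set (S K)}
    (hX : ∀ σ ∈ X, ∃ s ∈ kk K, ∃ t : Gn → S K, (∀ i, t i ∈ X) ∧ σ = s • lt p + E t)
    {σ : S K} (hσ : σ ∈ X) : ∃ e ∈ R K, σ = e * lt p := by
  have h1 : ∀ N, ∀ σ ∈ X, ∃ e : S K, J N (σ - e * lt p) := by
    intro N
    induction N with
    | zero => exact fun σ _ => ⟨0, J_zero _⟩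
    | succ N ih =>
      intro σ hσ
      obtain ⟨s, -, t, ht, e⟩ := hX σ hσ
      choose ee hee using fun i => ih _ (ht i)
      refine ⟨s • 1 + E ee, ?_⟩
      have : σ - (s • 1 + E ee) * lt p = E (fun i => t i - ee i * lt p) := by
        have e2 : (fun i => t i - ee i * lt p) = t - fun i => ee i * lt p := rfl
        rw [e2, E_sub, ← E_mul, e, add_mul, smul_mul_assoc, one_mul]
        abel
      rw [this]
      exact J_E hee
  have h2 : ∀ σ ∈ X, ∃ e : S K, σ = e * lt p := fun σ hσ => closed_right p fun N => h1 N σ hσ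
  obtain ⟨e, rfl⟩ := h2 σ hσ
  refine ⟨e, coind (X := {e | e * lt p ∈ X}) ?_ hσ, rfl⟩
  intro r hr
  obtain ⟨s, hs, t, ht, e⟩ := hX _ hr
  choose ee hee using fun i => h2 _ (ht i)
  refine ⟨s, hs, ee, fun i => ?_, ?_⟩
  · show ee i * lt p ∈ X
    rw [← hee]
    exact ht i
  · rw [← sub_eq_zero]
    apply ann_lt hp ho
    have e3 : t = fun i => ee i * lt p := funext hee
    rw [sub_mul, e, add_mul, smul_mul_assoc, one_mul, E_mul, ← e3, sub_self]

/-- The constant part of a pair. -/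
noncomputable def cst (P : V K) : V K := (eps P.1 • (1 : S K), eps P.2 • (1 : S K))

theorem cst_mem {P : V K} (hP : P ∈ RR K) : cst P ∈ RR K :=
  ⟨smul_one_mem (eps_mem hP.1), smul_one_mem (eps_mem hP.2)⟩

theorem Xext' {q n : V K} (hn : n ∈ RR K) {e1 e2 e3 e4 e5 e6 : S K}
    (h : ph q n - (eps n.1 • q.1 + eps n.2 • q.2) = gen .x * e1 + gen .u * e2 + gen .y * e3
      + gen .v * e4 + gen .z * e5 + gen .w * e6) :
    Nq q e1 ∧ Nq q e2 ∧ Nq q e3 ∧ Nq q e4 ∧ Nq q e5 ∧ Nq q e6 := by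
  apply Xext (n := n - cst n) (sub_mem hn (cst_mem hn)) (by simp [cst]) (by simp [cst])
  rw [map_sub, ← h]
  simp [cst, ph_apply]

theorem eps_zero_of {σ μ : S K} (h1 : σ ∈ R K) (h2 : σ * μ ∈ R K) (hμ : eps μ = th) :
    eps σ = 0 := by
  have := indep (neg_mem (eps_mem h2)) (eps_mem h1) (by simp [hμ])
  exact this.2

theorem class_lam {σ : S K} (h1 : σ ∈ R K) (h2 : σ * lam ∈ R K) : ∃ e ∈ R K, σ = e * lt Lt.a := by
  apply right_mult (by decide) (by decide) (X := {σ | σ ∈ R K ∧ σ * lam ∈ R K}) _ ⟨h1, h2⟩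
  rintro σ ⟨h1, h2⟩
  have hq : ((gen .x, -gen .y) : V K) ∈ RR K := ⟨gen_mem .x, neg_mem (gen_mem .y)⟩
  have e1 := eps_zero_of h1 h2 eps_lam
  obtain ⟨Pa, ha, Pb, hb, Pf, hf, Pg, hg, d1, hd1, d2, hd2, d5, hd5, a1, a2, a3, a4, hJ⟩ :=
    peel hq (p := (σ, σ * lam)) ⟨⟨h1, h2⟩, by simp [ph_apply, gen, mul_assoc]⟩ e1
      (by simp [e1])
  obtain ⟨k1, k2, -⟩ := Xext' (q := (gen .x, -gen .y)) ha (e1 := d1 - eps Pa.1 • 1) (e2 := d2)
    (e3 := eps Pa.2 • 1) (e4 := 0) (e5 := 0) (e6 := 0) (by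
      rw [a1]
      simp only [mul_sub, mul_smul_comm, mul_one, mul_zero, smul_neg]
      abel)
  obtain ⟨-, -, -, -, k5, -⟩ := Xext' (q := (gen .x, -gen .y)) hf (e1 := -eps Pf.1 • 1) (e2 := 0)
    (e3 := eps Pf.2 • 1) (e4 := 0) (e5 := d5) (e6 := 0) (by
      rw [a3]
      simp only [mul_smul_comm, mul_one, mul_zero, smul_neg, neg_smul, mul_neg]
      abel)
  have hs : (eps Pa.1 • (1 : S K)) ∈ R K := smul_one_mem (eps_mem ha.1)
  have m1 := redAB (q := (gen .x, -gen .y)) (Pa := Pa - (eps Pa.1 • 1, 0))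
    (Pb := Pb - (0, eps Pa.1 • 1)) (sub_mem ha ⟨hs, zero_mem _⟩) (sub_mem hb ⟨zero_mem _, hs⟩)
    (d := d1 - eps Pa.1 • 1) (d' := d2) (by
      rw [map_sub, a1]
      simp only [ph_apply, mul_sub, mul_smul_comm, smul_mul_assoc, mul_one, one_mul, zero_mul]
      abel) (by
      rw [map_sub, a2]
      simp only [ph_apply, mul_sub, mul_smul_comm, smul_mul_assoc, mul_one, one_mul, zero_mul,
        smul_neg]
      abel) k1 k2
  obtain ⟨P, hP, e⟩ := add_mem (add_mem hJ (redFG hf hg a3 a4 k5)) m1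
  refine ⟨eps Pa.1, eps_mem ha.1, fun i => (P i).1, fun i => ⟨(hP i).1.1, ?_⟩, ?_⟩
  · have h3 : ((P i).1 * lam - (P i).2) * lt Lt.y = 0 := by
      have := (hP i).2
      simp only [ph_apply, gen, mul_neg] at this
      rw [sub_mul, mul_assoc, sub_eq_add_neg, this]
    rw [sub_eq_zero.mp (ann_lt (by decide) (by decide) h3)]
    exact (hP i).1.2
  · rw [← EV_fst, ← e]
    simp only [Prod.fst_add, Prod.fst_sub, Prod.smul_fst, smul_eq_mul, mul_sub, mul_smul_comm,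
      mul_one, mul_zero, gen]
    abel

theorem class_nu {σ : S K} (h1 : σ ∈ R K) (h2 : σ * nu ∈ R K) : ∃ e ∈ R K, σ = e * lt Lt.f := by
  apply right_mult (by decide) (by decide) (X := {σ | σ ∈ R K ∧ σ * nu ∈ R K}) _ ⟨h1, h2⟩
  rintro σ ⟨h1, h2⟩
  have hq : ((gen .z, -gen .y) : V K) ∈ RR K := ⟨gen_mem .z, neg_mem (gen_mem .y)⟩
  have e1 := eps_zero_of h1 h2 eps_nu
  obtain ⟨Pa, ha, Pb, hb, Pf, hf, Pg, hg, d1, hd1, d2, hd2, d5, hd5, a1, a2, a3, a4, hJ⟩ :=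
    peel hq (p := (σ, σ * nu)) ⟨⟨h1, h2⟩, by simp [ph_apply, gen, mul_assoc]⟩ e1
      (by simp [e1])
  obtain ⟨k1, k2, -⟩ := Xext' (q := (gen .z, -gen .y)) ha (e1 := d1) (e2 := d2)
    (e3 := eps Pa.2 • 1) (e4 := 0) (e5 := -eps Pa.1 • 1) (e6 := 0) (by
      rw [a1]
      simp only [mul_smul_comm, mul_one, mul_zero, smul_neg, neg_smul, mul_neg]
      abel)
  obtain ⟨-, -, -, -, k5, -⟩ := Xext' (q := (gen .z, -gen .y)) hf (e1 := 0) (e2 := 0)
    (e3 := eps Pf.2 • 1) (e4 := 0) (e5 := d5 - eps Pf.1 • 1) (e6 := 0) (by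
      rw [a3]
      simp only [mul_sub, mul_smul_comm, mul_one, mul_zero, smul_neg]
      abel)
  have hs : (eps Pf.1 • (1 : S K)) ∈ R K := smul_one_mem (eps_mem hf.1)
  have m1 := redFG (q := (gen .z, -gen .y)) (Pf := Pf - (eps Pf.1 • 1, 0))
    (Pg := Pg - (0, eps Pf.1 • 1)) (sub_mem hf ⟨hs, zero_mem _⟩) (sub_mem hg ⟨zero_mem _, hs⟩)
    (d := d5 - eps Pf.1 • 1) (by
      rw [map_sub, a3]
      simp only [ph_apply, mul_sub, mul_smul_comm, smul_mul_assoc, mul_one, one_mul, zero_mul]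
      abel) (by
      rw [map_sub, a4]
      simp only [ph_apply, mul_sub, mul_smul_comm, smul_mul_assoc, mul_one, one_mul, zero_mul,
        smul_neg]
      abel) k5
  obtain ⟨P, hP, e⟩ := add_mem (add_mem hJ (redAB ha hb a1 a2 k1 k2)) m1
  refine ⟨eps Pf.1, eps_mem hf.1, fun i => (P i).1, fun i => ⟨(hP i).1.1, ?_⟩, ?_⟩
  · have h3 : ((P i).1 * nu - (P i).2) * lt Lt.y = 0 := by
      have := (hP i).2
      simp only [ph_apply, gen, mul_neg] at this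
      rw [sub_mul, mul_assoc, sub_eq_add_neg, this]
    rw [sub_eq_zero.mp (ann_lt (by decide) (by decide) h3)]
    exact (hP i).1.2
  · rw [← EV_fst, ← e]
    simp only [Prod.fst_add, Prod.fst_sub, Prod.smul_fst, smul_eq_mul, mul_sub, mul_smul_comm,
      mul_one, mul_zero, gen]
    abel

/-- A basis element for the standard columns. -/
def Base (μ η : S K) : Prop := (μ = lam ∨ μ = nu) ∧ η ∈ R K ∧ η ≠ 0 ∧ μ * η ∈ R K

/-- Unimodular combinations. -/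
def Ab (μ η m : S K) : Prop :=
  ∃ p ∈ R K, ∃ q ∈ R K, (eps p ≠ 0 ∨ eps q ≠ 0) ∧ m = (p + q * μ) * η

/-- One step of the relation between right factors. -/
def Xstep (m m' : S K) : Prop := ∃ μ η, Base μ η ∧ Ab μ η m ∧ Ab μ η m'

theorem Base.eps_mu {μ η : S K} (h : Base μ η) : eps μ = th := by
  rcases h.1 with rfl | rfl
  · exact eps_lam
  · exact eps_nu

theorem Base.yv {μ η : S K} (h : Base μ η) : ∃ d d', η = lt Lt.y * d + lt Lt.v * d' := by
  obtain ⟨rfl | rfl, h1, -, h2⟩ := h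
  · obtain ⟨d, -, d', -, e⟩ := lam_mem h1 h2
    exact ⟨d, d', e⟩
  · obtain ⟨d, -, e⟩ := nu_mem h1 h2
    exact ⟨d, 0, by simpa using e⟩

theorem Base.eps_eta {μ η : S K} (h : Base μ η) : eps η = 0 := by
  obtain ⟨d, d', rfl⟩ := h.yv
  simp [eps_lt]

theorem Base.ann {μ η b : S K} (h : Base μ η) (hb : b * η = 0) : b = 0 := by
  apply _root_.Pool.Agent.P.MP_17d087_al.ann hb h.2.2.1
  obtain ⟨d, d', rfl⟩ := h.yv
  simp [Dl_lt_mul]

theorem Ab.unit {μ η m : S K} (h : Base μ η) (ha : Ab μ η m) : ∃ u : (S K)ˣ, m = u * η := by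
  obtain ⟨p, hp, q, hq, h0, rfl⟩ := ha
  obtain ⟨u, hu⟩ := isUnit_pm hp hq h.eps_mu h0
  exact ⟨u, by rw [hu]⟩

theorem Ab.mem {μ η m : S K} (h : Base μ η) (ha : Ab μ η m) : m ∈ R K := by
  obtain ⟨p, hp, q, hq, h0, rfl⟩ := ha
  rw [add_mul, mul_assoc]
  exact add_mem (mul_mem hp h.2.1) (mul_mem hq h.2.2.2)

/-- Elements of right type. -/
def XT (m : S K) : Prop := ∃ μ η, Base μ η ∧ Ab μ η m

theorem XT.mem {m : S K} (h : XT m) : m ∈ R K := by
  obtain ⟨μ, η, hb, ha⟩ := h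
  exact ha.mem hb

theorem XT.eps_eq {m : S K} (h : XT m) : eps m = 0 := by
  obtain ⟨μ, η, hb, ha⟩ := h
  obtain ⟨u, rfl⟩ := ha.unit hb
  rw [map_mul, hb.eps_eta, mul_zero]

theorem XT.ann {m b : S K} (h : XT m) (h0 : b * m = 0) : b = 0 := by
  obtain ⟨μ, η, hb, ha⟩ := h
  obtain ⟨u, rfl⟩ := ha.unit hb
  rw [← mul_assoc] at h0
  simpa using hb.ann h0

theorem XT.cancel {m b b' : S K} (h : XT m) (h0 : b * m = b' * m) : b = b' :=
  sub_eq_zero.mp (h.ann (by rw [sub_mul, h0, sub_self]))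

theorem XT.ne_zero {m : S K} (h : XT m) : m ≠ 0 := by
  rintro rfl
  exact one_ne_zero' (h.ann (mul_zero 1))

theorem XT.eps_Dl {m : S K} (h : XT m) {p : Lt} (hp : p = Lt.a ∨ p = Lt.f) : eps (Dl p m) = 0 := by
  obtain ⟨μ, η, hb, ha⟩ := h
  obtain ⟨u, rfl⟩ := ha.unit hb
  have h3 : p ≠ Lt.c3 := by rcases hp with rfl | rfl <;> decide
  rw [Dl_mul h3, map_add, map_mul, hb.eps_eta, mul_zero, zero_add, map_smul]
  obtain ⟨d, d', rfl⟩ := hb.yv
  rcases hp with rfl | rfl <;> simp [Dl_lt_mul]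

theorem Xstep.symm {m m' : S K} (h : Xstep m m') : Xstep m' m := by
  obtain ⟨μ, η, hb, h1, h2⟩ := h
  exact ⟨μ, η, hb, h2, h1⟩

theorem Xstep.left {m m' : S K} (h : Xstep m m') : XT m := by
  obtain ⟨μ, η, hb, h1, -⟩ := h
  exact ⟨μ, η, hb, h1⟩

theorem Xstep.unit {m m' : S K} (h : Xstep m m') : ∃ u : (S K)ˣ, m = u * m' := by
  obtain ⟨μ, η, hb, h1, h2⟩ := h
  obtain ⟨u, rfl⟩ := h1.unit hb
  obtain ⟨u', rfl⟩ := h2.unit hb
  exact ⟨u * u'⁻¹, by simp [mul_assoc]⟩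

theorem Xstep.lmul {m m' u : S K} (h : Xstep m m') (hu : u ∈ R K) (h0 : eps u ≠ 0) :
    Xstep (u * m) m' := by
  obtain ⟨μ, η, hb, ⟨p, hp, q, hq, h1, rfl⟩, h2⟩ := h
  refine ⟨μ, η, hb, ⟨u * p, mul_mem hu hp, u * q, mul_mem hu hq, ?_, ?_⟩, h2⟩
  · simpa [h0] using h1
  · simp only [mul_add, add_mul, mul_assoc]

theorem Xstep.rmul {m m' n : S K} (h : Xstep m m') (hn : n ∈ R K) (h0 : n ≠ 0) :
    Xstep (m * n) (m' * n) := by
  obtain ⟨μ, η, ⟨b1, b2, b3, b4⟩, ⟨p, hp, q, hq, h1, rfl⟩, ⟨p', hp', q', hq', h2, rfl⟩⟩ := h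
  exact ⟨μ, η * n, ⟨b1, mul_mem b2 hn, fun h => b3 (domain b2 hn h h0),
    by rw [← mul_assoc]; exact mul_mem b4 hn⟩, ⟨p, hp, q, hq, h1, mul_assoc _ _ _⟩,
    ⟨p', hp', q', hq', h2, mul_assoc _ _ _⟩⟩

theorem comp_aux {τ n p q η ζ : S K} (hτ : τ ∈ R K) (h0 : eps τ = 0) (hp : p ∈ R K) (hq : q ∈ R K)
    (e : p * η + q * ζ = τ * n) :
    ∃ t tp tq : Gn → S K, (∀ i, t i ∈ R K) ∧ (∀ i, tp i ∈ R K) ∧ (∀ i, tq i ∈ R K) ∧
      E (fun i => t i * n - tp i * η - tq i * ζ) = eps p • η + eps q • ζ := by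
  obtain ⟨t, ht, e1⟩ := dec0 hτ h0
  obtain ⟨-, tp, htp, e2⟩ := dec hp
  obtain ⟨-, tq, htq, e3⟩ := dec hq
  refine ⟨t, tp, tq, ht, htp, htq, ?_⟩
  have e4 : (fun i => t i * n - tp i * η - tq i * ζ)
      = (fun i => t i * n) - (fun i => tp i * η) - fun i => tq i * ζ := rfl
  rw [e4, E_sub, E_sub, ← E_mul, ← E_mul, ← E_mul, ← e1, ← e]
  conv_lhs => rw [e2, e3]
  simp only [add_mul, smul_mul_assoc, one_mul]
  abel

theorem base_factor {μ η τ n : S K} (hb : Base μ η) (ha : Ab μ η (τ * n)) (hτ : τ ∈ R K)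
    (h0 : eps τ = 0) : ∃ η0 ∈ R K, μ * η0 ∈ R K ∧ η = η0 * n := by
  obtain ⟨p, hp, q, hq, h1, e⟩ := ha
  rw [add_mul, mul_assoc] at e
  obtain ⟨t, tp, tq, ht, htp, htq, e1⟩ := comp_aux hτ h0 hp hq e.symm
  have hp0 : eps p • (1 : S K) ∈ R K := smul_one_mem (eps_mem hp)
  have hq0 : eps q • (1 : S K) ∈ R K := smul_one_mem (eps_mem hq)
  obtain ⟨rfl | rfl, b1, -, b2⟩ := hb
  · obtain ⟨d, hd, d', hd', rfl⟩ := lam_mem b1 b2
    have e0 : lam * (lt Lt.y * d + lt Lt.v * d') = gen .x * d + gen .u * d' := lam_yv d d'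
    have fin : ∀ (c : K) (i j : Gn), c ≠ 0 → c • (1 : S K) ∈ R K →
        t i * n - tp i * (lt Lt.y * d + lt Lt.v * d') - tq i * (gen .x * d + gen .u * d') = c • d →
        t j * n - tp j * (lt Lt.y * d + lt Lt.v * d') - tq j * (gen .x * d + gen .u * d') = c • d' →
        ∃ η0 ∈ R K, lam * η0 ∈ R K ∧ lt Lt.y * d + lt Lt.v * d' = η0 * n := by
      intro c i j hc hc' f1 f2
      have hy : (lt Lt.y : S K) ∈ R K := gen_mem .y
      have hv : (lt Lt.v : S K) ∈ R K := gen_mem .v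
      have hP : ((c • 1 + tp i * lt Lt.y + tq i * gen .x, tp i * lt Lt.v + tq i * gen .u) : V K)
          ∈ RR K :=
        ⟨add_mem (add_mem hc' (mul_mem (htp i) hy)) (mul_mem (htq i) (gen_mem _)),
          add_mem (mul_mem (htp i) hv) (mul_mem (htq i) (gen_mem _))⟩
      have hQ : ((tp j * lt Lt.y + tq j * gen .x, c • 1 + tp j * lt Lt.v + tq j * gen .u) : V K)
          ∈ RR K :=
        ⟨add_mem (mul_mem (htp j) hy) (mul_mem (htq j) (gen_mem _)),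
          add_mem (add_mem hc' (mul_mem (htp j) hv)) (mul_mem (htq j) (gen_mem _))⟩
      have hdet : det ((c • 1 + tp i * lt Lt.y + tq i * gen .x,
          tp i * lt Lt.v + tq i * gen .u) : V K) ((tp j * lt Lt.y + tq j * gen .x,
          c • 1 + tp j * lt Lt.v + tq j * gen .u) : V K) ≠ 0 := by
        simp [det, eps_lt, eps_gen, hc]
      have p1 : ph (d, d') ((c • 1 + tp i * lt Lt.y + tq i * gen .x,
          tp i * lt Lt.v + tq i * gen .u) : V K) = t i * n := by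
        rw [sub_sub, sub_eq_iff_eq_add] at f1
        rw [f1]
        simp only [ph_apply, add_mul, mul_add, mul_assoc, smul_mul_assoc, one_mul]
        abel
      have p2 : ph (d, d') ((tp j * lt Lt.y + tq j * gen .x,
          c • 1 + tp j * lt Lt.v + tq j * gen .u) : V K) = t j * n := by
        rw [sub_sub, sub_eq_iff_eq_add] at f2
        rw [f2]
        simp only [ph_apply, add_mul, mul_add, mul_assoc, smul_mul_assoc, one_mul]
        abel
      obtain ⟨s1, hs1, t1, ht1, g1⟩ := span_all hP hQ hdet (p := (1, 0)) ⟨one_mem _, zero_mem _⟩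
      obtain ⟨s2, hs2, t2, ht2, g2⟩ := span_all hP hQ hdet (p := (0, 1)) ⟨zero_mem _, one_mem _⟩
      have g3 := congrArg (ph (d, d')) g1
      have g4 := congrArg (ph (d, d')) g2
      rw [map_add, map_smul, map_smul, p1, p2, ph_apply] at g3 g4
      simp only [one_mul, zero_mul, add_zero, zero_add, smul_eq_mul] at g3 g4
      have m1 : s1 * t i + t1 * t j ∈ R K := add_mem (mul_mem hs1 (ht i)) (mul_mem ht1 (ht j))
      have m2 : s2 * t i + t2 * t j ∈ R K := add_mem (mul_mem hs2 (ht i)) (mul_mem ht2 (ht j))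
      refine ⟨lt Lt.y * (s1 * t i + t1 * t j) + lt Lt.v * (s2 * t i + t2 * t j),
        add_mem (mul_mem hy m1) (mul_mem hv m2), ?_, ?_⟩
      · have := lam_yv (s1 * t i + t1 * t j) (s2 * t i + t2 * t j)
        simp only [gen] at this
        rw [this]
        exact add_mem (mul_mem (gen_mem .x) m1) (mul_mem (gen_mem .u) m2)
      · conv_lhs => rw [g3, g4]
        simp only [add_mul, mul_add, mul_assoc]
    rw [e0] at e1
    obtain ⟨x1, x2, x3, x4, -, -⟩ := X_comp (e1 := eps q • d) (e2 := eps q • d') (e3 := eps p • d)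
      (e4 := eps p • d') (e5 := 0) (e6 := 0) (e1.trans (by
        simp only [gen, smul_add, mul_smul_comm, mul_zero]
        abel))
    rcases h1 with h1 | h1
    · exact fin _ _ _ h1 hp0 x3 x4
    · exact fin _ _ _ h1 hq0 x1 x2
  · obtain ⟨d, hd, rfl⟩ := nu_mem b1 b2
    have e0 : nu * (lt Lt.y * d) = gen .z * d := nu_y d
    have fin : ∀ (c : K) (i : Gn), c ≠ 0 → c • (1 : S K) ∈ R K →
        t i * n - tp i * (lt Lt.y * d) - tq i * (gen .z * d) = c • d →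
        ∃ η0 ∈ R K, nu * η0 ∈ R K ∧ lt Lt.y * d = η0 * n := by
      intro c i hc hc' f1
      have hy : (lt Lt.y : S K) ∈ R K := gen_mem .y
      obtain ⟨j, hj, -, j2⟩ := exists_inv (r := c • 1 + tp i * lt Lt.y + tq i * gen .z)
        (add_mem (add_mem hc' (mul_mem (htp i) hy)) (mul_mem (htq i) (gen_mem _)))
        (by simp [eps_lt, eps_gen, hc])
      have p1 : (c • 1 + tp i * lt Lt.y + tq i * gen .z) * d = t i * n := by
        rw [sub_sub, sub_eq_iff_eq_add] at f1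
        rw [f1]
        simp only [add_mul, mul_assoc, smul_mul_assoc, one_mul]
        abel
      have m1 : j * t i ∈ R K := mul_mem hj (ht i)
      refine ⟨lt Lt.y * (j * t i), mul_mem hy m1, ?_, ?_⟩
      · have := nu_y (j * t i)
        simp only [gen] at this
        rw [this]
        exact mul_mem (gen_mem .z) m1
      · rw [mul_assoc, mul_assoc, ← p1, ← mul_assoc j, j2, one_mul]
    rw [e0] at e1
    obtain ⟨-, -, x3, -, x5, -⟩ := X_comp (e1 := 0) (e2 := 0) (e3 := eps p • d)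
      (e4 := 0) (e5 := eps q • d) (e6 := 0) (e1.trans (by
        simp only [gen, mul_smul_comm, mul_zero]
        abel))
    rcases h1 with h1 | h1
    · exact fin _ _ h1 hp0 x3
    · exact fin _ _ h1 hq0 x5

theorem Xstep.compat {m τ n : S K} (h : Xstep m (τ * n)) (hτ : τ ∈ R K) (h0 : eps τ = 0)
    (hn : n ∈ R K) : ∃ τ', m = τ' * n ∧ Xstep τ' τ := by
  have hne := h.symm.left.ne_zero
  have hn0 : n ≠ 0 := by
    rintro rfl
    exact hne (mul_zero _)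
  obtain ⟨μ, η, hb, ⟨p', hp', q', hq', h1', rfl⟩, ha⟩ := h
  obtain ⟨η0, b1, b2, rfl⟩ := base_factor hb ha hτ h0
  have hb0 : Base μ η0 := ⟨hb.1, b1, fun h => hb.2.2.1 (by rw [h, zero_mul]), b2⟩
  obtain ⟨p, hp, q, hq, h1, e⟩ := ha
  have ha0 : Ab μ η0 ((p + q * μ) * η0) := ⟨p, hp, q, hq, h1, rfl⟩
  have e1 : τ = (p + q * μ) * η0 := cancel_right hτ (ha0.mem hb0) hn hn0 (by rw [e, mul_assoc])
  exact ⟨(p' + q' * μ) * η0, (mul_assoc _ _ _).symm, μ, η0, hb0, ⟨p', hp', q', hq', h1', rfl⟩,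
    e1 ▸ ha0⟩

/-- The chain relation. -/
def XR : S K → S K → Prop := Relation.TransGen Xstep

theorem XR.symm {m m' : S K} (h : XR m m') : XR m' m := by
  induction h with
  | single h => exact Relation.TransGen.single h.symm
  | tail _ h ih => exact Relation.TransGen.head h.symm ih

theorem XR.trans {m m' m'' : S K} (h : XR m m') (h' : XR m' m'') : XR m m'' :=
  Relation.TransGen.trans h h'

theorem XR.right {m m' : S K} (h : XR m m') : XT m' := by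
  cases h with
  | single h => exact h.symm.left
  | tail _ h => exact h.symm.left

theorem XR.left {m m' : S K} (h : XR m m') : XT m := h.symm.right

theorem XR.unit {m m' : S K} (h : XR m m') : ∃ u : (S K)ˣ, m = u * m' := by
  induction h with
  | single h => exact h.unit
  | tail _ h ih =>
    obtain ⟨u, rfl⟩ := ih
    obtain ⟨u', rfl⟩ := h.unit
    exact ⟨u * u', by simp [mul_assoc]⟩

theorem XR.lmul' {m m' u : S K} (h : XR m m') (hu : u ∈ R K) (h0 : eps u ≠ 0) :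
    XR m (u * m') := by
  cases h with
  | single h => exact Relation.TransGen.single (h.symm.lmul hu h0).symm
  | tail h' h => exact Relation.TransGen.tail h' (h.symm.lmul hu h0).symm

theorem XR.lmul {m m' u : S K} (h : XR m m') (hu : u ∈ R K) (h0 : eps u ≠ 0) :
    XR (u * m) m' := (h.symm.lmul' hu h0).symm

theorem XR.rmul {m m' n : S K} (h : XR m m') (hn : n ∈ R K) (h0 : n ≠ 0) :
    XR (m * n) (m' * n) := by
  induction h with
  | single h => exact Relation.TransGen.single (h.rmul hn h0)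
  | tail _ h ih => exact Relation.TransGen.tail ih (h.rmul hn h0)

theorem XR.compat' {n m m' : S K} (hn : n ∈ R K) (h : XR m m') :
    ∀ τ ∈ R K, eps τ = 0 → m' = τ * n → ∃ τ', m = τ' * n ∧ XR τ' τ := by
  induction h with
  | single h =>
    rintro τ hτ h0 rfl
    obtain ⟨τ', e, h'⟩ := h.compat hτ h0 hn
    exact ⟨τ', e, Relation.TransGen.single h'⟩
  | tail _ h ih =>
    rintro τ hτ h0 rfl
    obtain ⟨τ', e, h'⟩ := h.compat hτ h0 hn
    obtain ⟨τ'', e', h''⟩ := ih τ' h'.left.mem h'.left.eps_eq e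
    exact ⟨τ'', e', Relation.TransGen.tail h'' h'⟩

theorem XR.compat {m τ n : S K} (h : XR m (τ * n)) (hτ : τ ∈ R K) (h0 : eps τ = 0)
    (hn : n ∈ R K) : ∃ τ', m = τ' * n ∧ XR τ' τ := h.compat' hn τ hτ h0 rfl

/-- Atoms. -/
def Atm (τ : S K) : Prop :=
  τ ∈ R K ∧ eps τ = 0 ∧ ∀ r ∈ R K, ∀ s ∈ R K, τ = r * s → eps r = 0 → eps s ≠ 0

theorem Atm.ne_zero {τ : S K} (h : Atm τ) : τ ≠ 0 := by
  rintro rfl
  exact h.2.2 0 (zero_mem _) 0 (zero_mem _) (mul_zero _).symm (map_zero _) (map_zero _)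

theorem Atm.of_XR {τ τ' : S K} (h : XR τ τ') (ha : Atm τ') : Atm τ := by
  refine ⟨h.left.mem, h.left.eps_eq, ?_⟩
  rintro r hr s hs rfl h0
  obtain ⟨r', e, h'⟩ := h.symm.compat hr h0 hs
  exact ha.2.2 r' h'.left.mem s hs e h'.left.eps_eq

theorem Atm.lmul {τ u : S K} (ha : Atm τ) (hu : u ∈ R K) (h0 : eps u ≠ 0) : Atm (u * τ) := by
  refine ⟨mul_mem hu ha.1, by rw [map_mul, ha.2.1, mul_zero], ?_⟩
  intro r hr s hs e h1
  obtain ⟨i, hi, -, i2⟩ := exists_inv hu h0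
  apply ha.2.2 (i * r) (mul_mem hi hr) s hs
  · rw [mul_assoc, ← e, ← mul_assoc, i2, one_mul]
  · rw [map_mul, h1, mul_zero]

/-- Elements of left type. -/
def IsA (τ : S K) : Prop :=
  ∃ p, (p = Lt.a ∨ p = Lt.f) ∧ ∃ c ∈ R K, eps c ≠ 0 ∧ ∃ h : (S K)ˣ, τ = c * lt p * (h : S K)

theorem IsA.not_XT {τ : S K} (h : IsA τ) : ¬ XT τ := by
  intro hX
  obtain ⟨p, hp, c, hc, h0, u, rfl⟩ := h
  have h3 : p ≠ Lt.c3 := by rcases hp with rfl | rfl <;> decide
  have := hX.eps_Dl hp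
  rw [mul_assoc, Dl_mul h3, Dl_lt_mul h3, if_pos rfl] at this
  simp only [map_add, map_mul, eps_lt, zero_mul, mul_zero, zero_add, map_smul, smul_eq_mul] at this
  exact mul_ne_zero h0 (eps_ne_zero_of_isUnit u.isUnit) this

theorem IsA.cancel {τ s s' : S K} (h : IsA τ) (e : τ * s = τ * s') : s = s' := by
  obtain ⟨p, hp, c, hc, h0, u, rfl⟩ := h
  have h3 : p ≠ Lt.c3 := by rcases hp with rfl | rfl <;> decide
  simp only [mul_assoc] at e
  have e1 := congrArg (Dl p) ((isUnit_of_eps h0).mul_left_cancel e)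
  rw [Dl_lt_mul h3, Dl_lt_mul h3, if_pos rfl, if_pos rfl] at e1
  exact u.isUnit.mul_left_cancel e1

theorem IsA.mul {τ g : S K} (h : IsA τ) (hg : g ∈ R K) (h0 : eps g ≠ 0) (k : (S K)ˣ) :
    IsA (g * τ * (k : S K)) := by
  obtain ⟨p, hp, c, hc, h1, u, rfl⟩ := h
  exact ⟨p, hp, g * c, mul_mem hg hc, by simpa using ⟨h0, h1⟩, u * k, by simp [mul_assoc]⟩

theorem fam_case {τ τ' m m' μ : S K} {p : Lt} (hp : p = Lt.a ∨ p = Lt.f) (hμ : μ = lam ∨ μ = nu)
    (hpm : (lt p : S K) ∈ R K) (hpμ : lt p * μ ∈ R K)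
    (hcl : ∀ σ ∈ R K, σ * μ ∈ R K → ∃ e ∈ R K, σ = e * lt p)
    (hτ : Atm τ) (hτ' : τ' ∈ R K) (hm : m ≠ 0) (e : τ * m = τ' * m') (hF : Fam (m, -m') μ) :
    ∃ h : (S K)ˣ, τ' = τ * (h : S K) ∧ IsA τ ∧ m = (h : S K) * m' ∧ XR m m' := by
  obtain ⟨P, hP, Q, hQ, η, hη, hμη, hdet, e1, e2⟩ := hF
  have ev : ∀ s t : S K, ph (m, -m') (s • P + t • Q) = (-t + s * μ) * η := by
    intro s t
    rw [map_add, map_smul, map_smul, e1, e2]
    simp only [smul_eq_mul, add_mul, mul_neg, neg_mul, mul_assoc]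
    abel
  obtain ⟨s1, hs1, t1, ht1, g1⟩ := span_all hP hQ hdet (p := (1, 0)) ⟨one_mem _, zero_mem _⟩
  obtain ⟨s2, hs2, t2, ht2, g2⟩ :=
    span_all hP hQ hdet (p := (0, -1)) ⟨zero_mem _, neg_mem (one_mem _)⟩
  obtain ⟨s3, hs3, t3, ht3, g3⟩ := span_all hP hQ hdet (p := (τ, τ')) ⟨hτ.1, hτ'⟩
  have f1 : m = (-t1 + s1 * μ) * η := by
    rw [← ev, ← g1]
    simp [ph_apply]
  have f2 : m' = (-t2 + s2 * μ) * η := by
    rw [← ev, ← g2]
    simp [ph_apply]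
  have f3 : (-t3 + s3 * μ) * η = 0 := by
    rw [← ev, ← g3]
    simp [ph_apply, e]
  have hb : Base μ η := ⟨hμ, hη, fun h => hm (by rw [f1, h, mul_zero]), hμη⟩
  have u1 : eps (-t1) ≠ 0 ∨ eps s1 ≠ 0 := by
    by_contra hc
    push Not at hc
    have := congrArg (fun p : V K => eps p.1) g1
    simp only [map_neg, neg_eq_zero] at hc
    simp [hc.1, hc.2] at this
  have u2 : eps (-t2) ≠ 0 ∨ eps s2 ≠ 0 := by
    by_contra hc
    push Not at hc
    have := congrArg (fun p : V K => eps p.2) g2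
    simp only [map_neg, neg_eq_zero] at hc
    simp [hc.1, hc.2] at this
  have hX : Xstep m m' :=
    ⟨μ, η, hb, ⟨_, neg_mem ht1, _, hs1, u1, f1⟩, ⟨_, neg_mem ht2, _, hs2, u2, f2⟩⟩
  have f4 : t3 = s3 * μ := neg_add_eq_zero.mp (hb.ann f3)
  obtain ⟨c, hc, rfl⟩ := hcl s3 hs3 (f4 ▸ ht3)
  obtain ⟨h1, k1⟩ := isUnit_pm' hP.1 hQ.1 hb.eps_mu (det_col1 hdet)
  obtain ⟨h2, k2⟩ := isUnit_pm' hP.2 hQ.2 hb.eps_mu (det_col2 hdet)
  have l1 : τ = c * lt p * (h1 : S K) := by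
    have := congrArg Prod.fst g3
    simp only [Prod.fst_add, Prod.smul_fst, smul_eq_mul, f4] at this
    rw [this, k1]
    simp only [mul_add, mul_assoc]
  have l2 : τ' = c * lt p * (h2 : S K) := by
    have := congrArg Prod.snd g3
    simp only [Prod.snd_add, Prod.smul_snd, smul_eq_mul, f4] at this
    rw [this, k2]
    simp only [mul_add, mul_assoc]
  have hc0 : eps c ≠ 0 := by
    intro h0
    apply hτ.2.2 c hc (lt p * (h1 : S K)) _ (by rw [l1, mul_assoc]) h0 (by simp [eps_lt])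
    rw [k1, mul_add, ← mul_assoc]
    exact add_mem (mul_mem hpm hP.1) (mul_mem hpμ hQ.1)
  have hA : IsA τ := ⟨p, hp, c, hc, hc0, h1, l1⟩
  have l3 : τ' = τ * ((h1⁻¹ * h2 : (S K)ˣ) : S K) := by
    rw [l1, l2]
    simp [mul_assoc]
  exact ⟨h1⁻¹ * h2, l3, hA, hA.cancel (by rw [e, l3, mul_assoc]), Relation.TransGen.single hX⟩

theorem two_term_raw {τ τ' m m' : S K} (hτ : Atm τ) (hτ' : Atm τ') (hm : m ∈ R K) (hm' : m' ∈ R K)
    (h0 : m ≠ 0) (h0' : m' ≠ 0) (e : τ * m = τ' * m') :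
    ∃ h : (S K)ˣ, τ' = τ * (h : S K) ∧ m = (h : S K) * m' ∧
      ((h : S K) ∈ R K ∨ (IsA τ ∧ XR m m')) := by
  have hq : ((m, -m') : V K) ∈ RR K := ⟨hm, neg_mem hm'⟩
  by_cases F1 : Fam ((m, -m') : V K) lam
  · obtain ⟨h, a1, a2, a3, a4⟩ := fam_case (Or.inl rfl) (Or.inl rfl) (gen_mem .a) (gen_mem .b)
      (fun σ h1 h2 => class_lam h1 h2) hτ hτ'.1 h0 e F1
    exact ⟨h, a1, a3, Or.inr ⟨a2, a4⟩⟩
  by_cases F2 : Fam ((m, -m') : V K) nu
  · obtain ⟨h, a1, a2, a3, a4⟩ := fam_case (Or.inr rfl) (Or.inr rfl) (gen_mem .f) (gen_mem .g)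
      (fun σ h1 h2 => class_nu h1 h2) hτ hτ'.1 h0 e F2
    exact ⟨h, a1, a3, Or.inr ⟨a2, a4⟩⟩
  by_cases h1 : ∃ P ∈ Lq ((m, -m') : V K), eps P.1 ≠ 0
  · obtain ⟨P, hP, h1⟩ := h1
    obtain ⟨i, hi, -, i2⟩ := exists_inv hP.1.1 h1
    have e1 : P.1 * m = P.2 * m' := by simpa [ph_apply, add_neg_eq_zero] using hP.2
    have e2 : m = i * P.2 * m' := by rw [mul_assoc, ← e1, ← mul_assoc, i2, one_mul]
    have hr : i * P.2 ∈ R K := mul_mem hi hP.1.2
    have e3 : τ' = τ * (i * P.2) :=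
      cancel_right hτ'.1 (mul_mem hτ.1 hr) hm' h0' (by rw [← e, mul_assoc, ← e2])
    obtain ⟨h, hh⟩ := isUnit_of_eps (hτ'.2.2 τ hτ.1 _ hr e3 hτ.2.1)
    exact ⟨h, by rw [hh, e3], by rw [hh, ← e2], Or.inl (hh ▸ hr)⟩
  by_cases h2 : ∃ P ∈ Lq ((m, -m') : V K), eps P.2 ≠ 0
  · obtain ⟨P, hP, h2⟩ := h2
    obtain ⟨i, hi, -, i2⟩ := exists_inv hP.1.2 h2
    have e1 : P.1 * m = P.2 * m' := by simpa [ph_apply, add_neg_eq_zero] using hP.2
    have e2 : m' = i * P.1 * m := by rw [mul_assoc, e1, ← mul_assoc, i2, one_mul]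
    have hr : i * P.1 ∈ R K := mul_mem hi hP.1.1
    have e3 : τ = τ' * (i * P.1) :=
      cancel_right hτ.1 (mul_mem hτ'.1 hr) hm h0 (by rw [e, mul_assoc, ← e2])
    have e4 := hτ.2.2 τ' hτ'.1 _ hr e3 hτ'.2.1
    exfalso
    apply h1
    refine ⟨P, hP, fun h => e4 ?_⟩
    rw [map_mul, h, mul_zero]
  exfalso
  push Not at h1 h2
  have key : ∀ n, ∀ P ∈ Lq ((m, -m') : V K), J n P.1 := by
    intro n
    induction n with
    | zero => exact fun P _ => J_zero _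
    | succ n ih =>
      intro P hP
      obtain ⟨Q, hQ, rfl⟩ := reduce hq F1 F2 hP (h1 P hP) (h2 P hP)
      rw [EV_fst]
      exact J_E fun i => ih _ (hQ i)
  exact hτ.ne_zero (eq_zero_of_J fun n =>
    key n (τ, τ') ⟨⟨hτ.1, hτ'.1⟩, by simp [ph_apply, e]⟩)

end Pool.Agent.P.MP_17d087_al
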